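import Pool.Agent.Helper32.DY.Root
import Pool.Agent.Helper9.DY.Pencil

/-!
# The inequality (E0) (MP_d13a5e_al)
-/

set_option autoImplicit false

namespace Pool.Agent.Helper32.DY

open _root_.DY (Z1 sq)
open Pool.Agent.Helper62.DY (RT)

namespace Two

variable {b1 b2 bO : ℝ} {R : ℝ → ℝ → ℝ → Prop} {κ f g x1 x2 g' v y2 : ℝ}

theorem fan (T : Two b1 b2 bO R κ f g x1 x2 g' v y2) {n : ℕ} (hm : ∀ k ≤ n, 0 < fm b2 κ k)
    (hs : ∀ k, 1 ≤ k → k ≤ n + 1 → 1 ≤ sq b2 k) :
    Fan (2 * b2) (fw b1 bO) (sq b2) (fe b1 b2 bO v y2 g') v n where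
  s0 := rfl
  s1 := rfl
  sr := fun k => rfl
  wp := fw_two b1 bO
  wz := by
    intro k
    unfold fw
    split_ifs
    · exact T.h.b1z
    · exact T.h.bOz
  er := fun k => rfl
  N := fe_n T.h T.hy
  z := fun k => z1_nonneg (fe_z T.h T.hy (by linarith [T.v1]) k)
  v1 := T.v1
  E := fun k _ h2 => T.e_pos (hm k h2)
  D := by
    intro k hk
    have h1 := (T.diff k).1
    have h2 := hm (k + 1) (by omega)
    have h3 : 0 ≤ 2 * b1 * v + 2 * b2 * y2 - 2 * g' := by linarith [T.obt]
    have h4 := hs (k + 1) (by omega) (by omega)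
    have h5 := T.b_pos
    have h6 := mul_nonneg h2.le h3
    have h7 : 0 ≤ sq b2 (k + 1) * ((2 * y2 - 2 * b2 * g' - 2 * bO * v) -
        κ * (2 * b1 * v + 2 * b2 * y2 - 2 * g')) := mul_nonneg (by linarith) h5.le
    have h8 : 0 ≤ fe b1 b2 bO v y2 g' k - fe b1 b2 bO v y2 g' (k + 2) := by
      rw [h1]
      exact add_nonneg h6 h7
    linarith
  V := fun k hk => T.r_pos (hm k (by omega)) (hm (k + 1) (by omega))
  hs := hs
  sz := by
    intro k hk
    cases k with
    | zero => exact absurd hk (lt_irrefl _)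
    | succ k =>
      have h1 := (T.h.flat (s := sq b2) rfl rfl (fun _ => rfl) k _ _ T.h.e0).1
      have e1 : sq b2 (k + 1) * 1 - sq b2 k * 0 = sq b2 (k + 1) := by ring
      rw [e1] at h1
      rcases h1 with h1 | h1
      · exact z1_one h1 hk
      · have := z1_nonneg h1
        linarith

/-- **(E0)**, `j = k + 3 ≥ 3` -/
theorem core (T : Two b1 b2 bO R κ f g x1 x2 g' v y2) (hx2 : Z1 x2) {k : ℕ}
    (hm : ∀ i ≤ k + 2, 0 < fm b2 κ i) (hs : ∀ i, 1 ≤ i → i ≤ k + 3 → 1 ≤ sq b2 i) :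
    sq b2 (k + 2) + 1 ≤ ((sq b2 (k + 2) + 1) * κ - sq b2 (k + 1)) * (x2 + y2) := by
  have F := T.fan hm hs
  have hd := hs (k + 1) (by omega) (by omega)
  have hS := hs (k + 2) (by omega) (by omega)
  have ha := hs (k + 3) (by omega) (by omega)
  have hv := T.v1
  have hy := T.q2
  have hmk : 0 < κ * sq b2 (k + 2) - sq b2 (k + 1) := hm (k + 2) le_rfl
  have hcas : sq b2 (k + 3) * sq b2 (k + 1) = sq b2 (k + 2) ^ 2 - 1 := F.cas (k + 1)
  rcases lt_or_ge (sq b2 (k + 1) * y2) (sq b2 (k + 2) * g') with hc | hc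
  · -- Lemma A
    have h1 := Pool.Agent.Helper62.DY.LA_one T.h (s := sq b2) rfl rfl (fun _ => rfl) (k := k + 1)
      (by omega) (fun n h1 h2 => hs n h1 h2) T.hy (by linarith) (by
        have e1 : sq b2 (k + 1) / sq b2 (k + 1 + 1) * y2 =
            sq b2 (k + 1) * y2 / sq b2 (k + 2) := by
          show sq b2 (k + 1) / sq b2 (k + 2) * y2 = _
          ring
        rw [e1, div_lt_iff₀ (by linarith)]
        linarith)
    have h2 : (sq b2 (k + 2) - 1) / sq b2 (k + 3) = sq b2 (k + 1) / (sq b2 (k + 2) + 1) := by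
      rw [div_eq_div_iff (by linarith) (by linarith)]
      linarith
    have h3 : 1 + sq b2 (k + 1) / (sq b2 (k + 2) + 1) * y2 ≤ g' := by
      rw [← h2]
      exact h1
    have h4 : sq b2 (k + 2) + 1 + sq b2 (k + 1) * y2 ≤ (sq b2 (k + 2) + 1) * g' := by
      have h5 := mul_le_mul_of_nonneg_left h3 (by linarith : 0 ≤ sq b2 (k + 2) + 1)
      have h6 : (sq b2 (k + 2) + 1) * (1 + sq b2 (k + 1) / (sq b2 (k + 2) + 1) * y2) =
          sq b2 (k + 2) + 1 + sq b2 (k + 1) * y2 := by
        field_simp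
      linarith
    have h5 : g' ≤ κ * y2 := by
      have := mul_nonneg T.hf (by linarith : 0 ≤ v)
      linarith [T.fy]
    have h6 := mul_le_mul_of_nonneg_left h5 (by linarith : 0 ≤ sq b2 (k + 2) + 1)
    have h7 : 0 ≤ ((sq b2 (k + 2) + 1) * κ - sq b2 (k + 1)) * x2 :=
      mul_nonneg (by linarith [T.hκ]) T.p2
    linarith
  · -- the other case
    have hx : 1 ≤ x2 := by
      rcases hx2 with h1 | h1
      · exfalso
        have hg : 0 ≤ g := by
          rcases T.h.z1 T.hx (by linarith [T.p1]) with ⟨h2, -, -⟩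
          exact z1_nonneg h2
        have h2 : f * x1 ≤ 0 := by
          have := T.fx
          rw [h1] at this
          linarith
        have h3 : f = 0 := by
          have h4 : f * x1 = 0 := le_antisymm h2 (mul_nonneg T.hf (by linarith [T.p1]))
          rcases mul_eq_zero.1 h4 with h5 | h5
          · exact h5
          · linarith [T.p1]
        have h4 := T.fy
        rw [h3] at h4
        have h5 : 0 < (κ * sq b2 (k + 2) - sq b2 (k + 1)) * y2 := mul_pos hmk (by linarith)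
        rw [h4] at hc
        linarith
      · exact h1
    have key : sq b2 (k + 2) * (sq b2 (k + 2) + 1) ≤ sq b2 (k + 1) * (y2 + 1) := by
      have e0 : fe b1 b2 bO v y2 g' 0 = y2 := rfl
      have hw1 : fw b1 bO 1 = 2 * bO := rfl
      have hw2 : fw b1 bO 2 = 2 * b1 := rfl
      have e2 : fe b1 b2 bO v y2 g' 2 = 2 * b2 * g' + 2 * bO * v - y2 := rfl
      rcases k with _ | _ | k
      · -- index three
        have hL : fe b1 b2 bO v y2 g' 2 ≤ fw b1 bO 1 * v := by
          have h1 : sq b2 2 * g' ≤ sq b2 1 * y2 := hc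
          have h2 : sq b2 2 = 2 * b2 := F.s2
          have h3 : sq b2 1 = 1 := rfl
          rw [h2, h3] at h1
          rw [e2, hw1]
          linarith
        have hw : fw b1 bO 1 = 1 ∨ fw b1 bO 1 = 0 ∨ 2 ≤ fw b1 bO 1 ^ 2 := by
          rw [hw1]
          rcases T.h.bOs with h1 | h1 | h1
          · exact Or.inr (Or.inl h1)
          · exact Or.inl h1
          · exact Or.inr (Or.inr h1)
        have h1 := F.two hw hL
        rw [e0] at h1
        have h2 : sq b2 2 = 2 * b2 := F.s2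
        show sq b2 2 * (sq b2 2 + 1) ≤ 1 * (y2 + 1)
        rw [h2, one_mul]
        exact h1
      · -- index four
        have hL : fw b1 bO 1 = 0 → fe b1 b2 bO v y2 g' 3 ≤ fw b1 bO 2 * v := by
          intro h0
          have h1 : sq b2 3 * g' ≤ sq b2 2 * y2 := hc
          have h2 : sq b2 2 = 2 * b2 := F.s2
          have h3 : sq b2 3 = (2 * b2) ^ 2 - 1 := F.s3
          rw [h2, h3] at h1
          have e3 : fe b1 b2 bO v y2 g' 3 = 2 * b2 * fe b1 b2 bO v y2 g' 2 + fw b1 bO 2 * v - g' := rfl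
          rw [hw1] at h0
          rw [e3, e2, h0]
          linarith
        have h1 := F.main 0 (fun _ => hL)
        rw [e0] at h1
        exact h1
      · have h1 := F.main (k + 1) (fun h => absurd h (by omega))
        rw [e0] at h1
        exact h1
    -- `κ - τ > d / (s (s + 1))`
    have h1 : sq b2 (k + 2) * (sq b2 (k + 2) + 1) ≤ sq b2 (k + 1) * (x2 + y2) := by
      have := mul_le_mul_of_nonneg_left (by linarith : y2 + 1 ≤ x2 + y2)
        (by linarith : 0 ≤ sq b2 (k + 1))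
      linarith
    have h2 : sq b2 (k + 2) * (sq b2 (k + 2) + 1) ≤
        sq b2 (k + 2) * (((sq b2 (k + 2) + 1) * κ - sq b2 (k + 1)) * (x2 + y2)) := by
      have h3 : sq b2 (k + 1) ≤ sq b2 (k + 2) * ((sq b2 (k + 2) + 1) * κ - sq b2 (k + 1)) := by
        nlinarith
      have h4 := mul_le_mul_of_nonneg_right h3 (by linarith : 0 ≤ x2 + y2)
      linarith
    exact le_of_mul_le_mul_left h2 (by linarith)

/-- for a vertex of infinite order `F` is not beyond all lines -/
theorem no_inf (T : Two b1 b2 bO R κ f g x1 x2 g' v y2) (hb : 1 ≤ b2)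
    (hm : ∀ k, 0 < fm b2 κ k) : False := by
  have hs : ∀ k, 1 ≤ k → 1 ≤ sq b2 k := by
    intro k hk
    obtain ⟨m, rfl⟩ : ∃ m, k = m + 1 := ⟨k - 1, by omega⟩
    exact _root_.DY.sq_ge_one hb m
  have F : ∀ n, Fan (2 * b2) (fw b1 bO) (sq b2) (fe b1 b2 bO v y2 g') v n := fun n =>
    T.fan (fun k _ => hm k) (fun k h1 _ => hs k h1)
  have hv := T.v1
  obtain ⟨E, hE⟩ : ∃ E : ℕ → ℝ, E = fe b1 b2 bO v y2 g' := ⟨_, rfl⟩
  have h1 : ∀ k, 1 ≤ E k := fun k => by
    rw [hE]
    exact T.e_pos (hm k)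
  have h2 : ∀ k, E (k + 1) + fw b1 bO (k + 1) * v / 2 ≤ E k := by
    intro k
    have h3 := (F (k + 1)).D k (by omega)
    have h4 := (F (k + 1)).er k
    rw [← hE] at h3 h4
    have h5 : 0 ≤ (b2 - 1) * E (k + 1) := mul_nonneg (by linarith) (by linarith [h1 (k + 1)])
    nlinarith
  obtain ⟨c, hc⟩ : ∃ c, c = (fw b1 bO 0 + fw b1 bO 1) / 2 := ⟨_, rfl⟩
  have hc0 : 0 < c := by
    rw [hc]
    linarith [(T.w_pos 0).2.2]
  have hw : ∀ k, fw b1 bO (k + 1) + fw b1 bO (k + 2) = fw b1 bO 0 + fw b1 bO 1 := by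
    intro k
    induction k with
    | zero =>
      show fw b1 bO 1 + fw b1 bO 2 = _
      rw [fw_two b1 bO 0]
      ring
    | succ k ih =>
      rw [← ih, fw_two b1 bO (k + 1)]
      ring
  have h3 : ∀ k : ℕ, E (2 * k) ≤ E 0 - c * k := by
    intro k
    induction k with
    | zero => simp
    | succ k ih =>
      have h4 := h2 (2 * k)
      have h5 := h2 (2 * k + 1)
      have h6 := hw (2 * k)
      have e1 : 2 * (k + 1) = 2 * k + 1 + 1 := by ring
      rw [e1]
      push_cast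
      have h7 : c ≤ c * v := by nlinarith
      have h8 : fw b1 bO (2 * k + 1) * v / 2 + fw b1 bO (2 * k + 1 + 1) * v / 2 = c * v := by
        rw [hc, ← h6]
        ring
      linarith
  obtain ⟨N, hN⟩ := exists_nat_gt (E 0 / c)
  rw [div_lt_iff₀ hc0] at hN
  have h4 := h3 N
  have h5 := h1 (2 * N)
  linarith

end Two

end Pool.Agent.Helper32.DY
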