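import Pool.Agent.Helper7.DY.Gap2
import Pool.Agent.Helper9.DY.Pencil
import Pool.Agent.Helper23.DY.F1

/-!
# Assembly of [GAP1] (MP_d13a5e_al)

`h = d2` (then `a = d1 + 2 bO d2`) or `1 ≤ be1` (`h ≠ d2`).  For `h = d2` the statements of the blocks are of the form `GP1 Ψ B P`,
`P` a condition on `b1 = -B t d1`, `b2 = -B t d2`, `bO = -B d1 d2`, `φ d1`, `φ d2`; `x' ≠ a` there (`1 ≤ g'`); `x' = a` is `G1xLa`.
`Good b2 (φ d2) k` is the index `j = k + 1` of `F` at the vertex `t ∩ d2`.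
-/

set_option autoImplicit false

namespace DY

open Set

variable {E : Type*} [AddCommGroup E] [Module ℝ E]

/-- the data of [GAP1] with `h = d2`, `x' ≠ a`, and an additional condition `P` on `b1, b2, bO, φ d1, φ d2` -/
def GP1 (Ψ : Set E) (B : E →ₗ[ℝ] E →ₗ[ℝ] ℝ) (P : ℝ → ℝ → ℝ → ℝ → ℝ → Prop) : Prop :=
  ∀ (ρ φ : E →ₗ[ℝ] ℝ) (t d1 d2 x x' : E) (g x1 x2 g' x1' x2' : ℝ),
    Xs Ψ B ρ φ t d1 d2 x x' g x1 x2 g' x1' x2' → 1 ≤ g' → 1 / 2 ≤ -B t d2 → 1 / 2 ≤ -B d1 d2 →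
    1 < -B t d1 + 2 * -B d1 d2 * -B t d2 → 0 ≤ φ d1 + 2 * -B d1 d2 * φ d2 →
    2 * -B d1 d2 * x1 < x2 → 2 * -B d1 d2 * x1' ≤ x2' →
    P (-B t d1) (-B t d2) (-B d1 d2) (φ d1) (φ d2) → False

/-- `h = d2`, `x' = a = d1 + 2 bO d2` -/
def G1xLa (Ψ : Set E) (B : E →ₗ[ℝ] E →ₗ[ℝ] ℝ) : Prop :=
  ∀ (ρ φ : E →ₗ[ℝ] ℝ) (t d1 d2 x x' : E) (g x1 x2 : ℝ),
    Xs Ψ B ρ φ t d1 d2 x x' g x1 x2 0 1 (2 * -B d1 d2) → 1 / 2 ≤ -B t d2 → 1 / 2 ≤ -B d1 d2 →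
    1 < -B t d1 + 2 * -B d1 d2 * -B t d2 → φ d1 + 2 * -B d1 d2 * φ d2 = 0 →
    2 * -B d1 d2 * x1 < x2 → False

/-- `F` at `V_2`: index at least `3`, or beyond -/
def Ge2 (b2 f2 : ℝ) : Prop := (∃ k, 2 ≤ k ∧ Good b2 f2 k) ∨ Beyond b2 f2

/-- `b1 = 0`, `bO = 1 / 2` -/
def G1c (Ψ : Set E) (B : E →ₗ[ℝ] E →ₗ[ℝ] ℝ) : Prop :=
  GP1 Ψ B fun b1 b2 bO _ f2 => b1 = 0 ∧ bO = 1 / 2 ∧ Ge2 b2 f2

/-- `b1 = 0`, `bO ≥ 1 / √2` -/
def G1d (Ψ : Set E) (B : E →ₗ[ℝ] E →ₗ[ℝ] ℝ) : Prop :=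
  GP1 Ψ B fun b1 b2 bO _ f2 => b1 = 0 ∧ 2 ≤ (2 * bO) ^ 2 ∧ Ge2 b2 f2

/-- `b1 ≥ 1 / 2`, `bO = 1 / 2`, `j = 3`, or beyond with `m2 = 3` -/
def G1e (Ψ : Set E) (B : E →ₗ[ℝ] E →ₗ[ℝ] ℝ) : Prop :=
  GP1 Ψ B fun b1 b2 bO _ f2 => 1 / 2 ≤ b1 ∧ bO = 1 / 2 ∧ (Good b2 f2 2 ∨ (b2 = 1 / 2 ∧ Beyond b2 f2))

/-- `b1 ≥ 1 / 2`, `bO = 1 / 2`, `j ≥ 4` -/
def G1f (Ψ : Set E) (B : E →ₗ[ℝ] E →ₗ[ℝ] ℝ) : Prop :=
  GP1 Ψ B fun b1 b2 bO _ f2 => 1 / 2 ≤ b1 ∧ bO = 1 / 2 ∧ ∃ k, 3 ≤ k ∧ Good b2 f2 k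

/-- `b1 ≥ 1 / 2`, `bO = 1 / 2`, beyond, `m2 ≥ 4` -/
def G1g (Ψ : Set E) (B : E →ₗ[ℝ] E →ₗ[ℝ] ℝ) : Prop :=
  GP1 Ψ B fun b1 b2 bO _ f2 => 1 / 2 ≤ b1 ∧ bO = 1 / 2 ∧ 2 ≤ (2 * b2) ^ 2 ∧ b2 < 1 ∧ Beyond b2 f2

/-- `b1 ≥ 1 / 2`, `bO ≥ 1 / √2` -/
def G1h (Ψ : Set E) (B : E →ₗ[ℝ] E →ₗ[ℝ] ℝ) : Prop :=
  GP1 Ψ B fun b1 b2 bO _ f2 => 1 / 2 ≤ b1 ∧ 2 ≤ (2 * bO) ^ 2 ∧ Ge2 b2 f2

/-- `h ≠ d2` -/
def G1n (Ψ : Set E) (B : E →ₗ[ℝ] E →ₗ[ℝ] ℝ) : Prop :=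
  GAPStat Ψ B fun t d1 d2 al1 al2 be1 _ =>
    1 / 2 ≤ -B d1 d2 ∧ 1 < al1 * -B t d1 + al2 * -B t d2 ∧ 1 ≤ be1

/-- the labels: `2 b = 1` or `(2 b)² ≥ 2` -/
theorem CP.lbl2 {Ψ : Set E} {B : E →ₗ[ℝ] E →ₗ[ℝ] ℝ} {t h : E} {b : ℝ} (hC : CP Ψ B t h b)
    (hb : 1 / 2 ≤ b) : b = 1 / 2 ∨ 2 ≤ (2 * b) ^ 2 := by
  have e2 : sq b 2 = 2 * b := by
    show 2 * b * 1 - 0 = 2 * b
    ring
  have e3 : sq b 3 = (2 * b) ^ 2 - 1 := by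
    show 2 * b * sq b 2 - 1 = _
    rw [e2]
    ring
  have h2 : 0 < sq b 2 := by rw [e2]; linarith
  rcases hC.sq_next h2 with h3 | h3
  · left
    have h4 : sq b 3 = 0 := h3
    rw [e3] at h4
    nlinarith
  · right
    have h4 : 1 ≤ sq b 3 := h3
    rw [e3] at h4
    linarith

/-- `F` beyond a vertex with `c ≥ 1` -/
theorem Beyond.quad_le {c f : ℝ} (h : Beyond c f) (hc : 1 ≤ c) (h1 : -f < 1) :
    1 + f ^ 2 - 2 * c * -f ≤ 0 := by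
  by_contra hcon
  rw [not_le] at hcon
  have hge : ∀ n : ℕ, (n : ℝ) ≤ sq c n := by
    intro n
    induction n with
    | zero => simp
    | succ n ih =>
      have := (sq_incr hc n).2
      push_cast
      linarith
  obtain ⟨N, hN⟩ := exists_nat_gt (1 / (1 + f ^ 2 - 2 * c * -f))
  rw [div_lt_iff₀ hcon] at hN
  have h2 := h N fun i _ => by linarith [sq_ge_one hc i]
  have h3 := sq_norm c N
  have h4 := sq_ge_one hc N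
  have h5 := hge (N + 1)
  push_cast at h5
  have h6 : 0 ≤ sq c N := (sq_incr hc N).1
  -- `κ = -f ≥ s_N / s_(N+1)`
  have h7 : sq c N ≤ -f * sq c (N + 1) := by linarith
  have h8 : -f * sq c (N + 1) ≤ c * sq c (N + 1) := mul_le_mul_of_nonneg_right (by linarith) (by linarith)
  have h9 : sq c N ≤ c * sq c (N + 1) := h7.trans h8
  -- `s² f(κ) ≤ 1`
  have h10 : sq c (N + 1) ^ 2 * (1 + f ^ 2 - 2 * c * -f) ≤ 1 := by
    have e : sq c (N + 1) ^ 2 * (1 + f ^ 2 - 2 * c * -f) = 1 -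
        (-f * sq c (N + 1) - sq c N) * (2 * (c * sq c (N + 1)) - -f * sq c (N + 1) - sq c N) := by
      linear_combination h3
    rw [e]
    have := mul_nonneg (sub_nonneg.2 h7)
      (by linarith : 0 ≤ 2 * (c * sq c (N + 1)) - -f * sq c (N + 1) - sq c N)
    linarith
  have h11 : (N : ℝ) * (1 + f ^ 2 - 2 * c * -f) ≤ sq c (N + 1) ^ 2 * (1 + f ^ 2 - 2 * c * -f) := by
    apply mul_le_mul_of_nonneg_right _ hcon.le
    nlinarith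
  linarith

/-- `h = d2`: `j = 2` is impossible: `F` would be in the chamber `-d2, t + 2 b2 d2, a` -/
theorem Xs.not_good_one' {Ψ : Set E} {B : E →ₗ[ℝ] E →ₗ[ℝ] ℝ} {ρ φ : E →ₗ[ℝ] ℝ} {t d1 d2 x x' : E}
    {g x1 x2 g' x1' x2' : ℝ} (X : Xs Ψ B ρ φ t d1 d2 x x' g x1 x2 g' x1' x2')
    (ha : 0 ≤ φ d1 + 2 * -B d1 d2 * φ d2) (hg : 2 * -B d1 d2 * x1 < x2) :
    ¬ Good (-B t d2) (φ d2) 1 := by
  intro h
  have e2 : sq (-B t d2) 2 = 2 * -B t d2 := Pool.Agent.Helper80.DY.sq_two' _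
  have e1 : sq (-B t d2) 1 = 1 := rfl
  have hp := h.hpos
  have e3 : (1 : ℕ) + 1 = 2 := rfl
  rw [e3, e2, e1] at hp
  have hR := Pool.Agent.Helper62.DY.rt_of_tri X.L.tri
  have hxm : g • t + x1 • d1 + x2 • d2 ∈ Ψ := by
    rw [← X.e]
    exact X.L.xm
  have h2 := hR.r2 _ _ _ hxm
  have h3 := (hR.z1 h2 (by linarith [X.p1])).2.2
  have hY : 0 ≤ 2 * -B t d2 * g + 2 * -B d1 d2 * x1 - x2 := by
    rcases h3 with h4 | h4 <;> linarith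
  have hg0 : 0 ≤ g := by
    rcases X.c.zg with h4 | h4 <;> linarith
  have f1 : g + x1 * φ d1 + x2 * φ d2 = 0 := by
    have := X.c.fz
    linarith
  have k1 := mul_nonneg hY (by linarith [X.h2] : 0 ≤ -φ d2)
  have k2 := mul_nonneg hg0 hp.le
  have k3 := mul_nonneg (by linarith [X.p1] : 0 ≤ x1) ha
  have k4 : (2 * -B t d2 * g + 2 * -B d1 d2 * x1 - x2) * -φ d2 + g * (2 * -B t d2 * φ d2 + 1) +
      x1 * (φ d1 + 2 * -B d1 d2 * φ d2) = 0 := by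
    linear_combination f1
  have k5 : g * (2 * -B t d2 * φ d2 + 1) = 0 := by linarith
  have k6 : (2 * -B t d2 * g + 2 * -B d1 d2 * x1 - x2) * -φ d2 = 0 := by linarith
  rcases mul_eq_zero.1 k5 with h5 | h5
  · rcases mul_eq_zero.1 k6 with h6 | h6
    · rw [h5] at h6
      linarith
    · linarith [X.h2]
  · linarith

/-- **assembly of [GAP1]** -/
theorem gap1_of {Ψ : Set E} {B : E →ₗ[ℝ] E →ₗ[ℝ] ℝ} (ha : G1xLa Ψ B) (hc : G1c Ψ B) (hd : G1d Ψ B)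
    (he : G1e Ψ B) (hf : G1f Ψ B) (hg : G1g Ψ B) (hh : G1h Ψ B) (hn : G1n Ψ B) : GAP1 Ψ B := by
  intro ρ φ t d1 d2 x x' g x1 x2 g' x1' x2' al1 al2 be1 be2 X O hP u0 u0' v0 v0'
  obtain ⟨hO, hca⟩ := hP
  rcases O.rh.z1 with hb | hb
  swap
  · exact hn _ _ _ _ _ _ _ _ _ _ _ _ _ _ _ _ _ X O ⟨hO, hca, hb⟩ u0 u0' v0 v0'
  -- `h = d2`
  subst hb
  have hbe2 : be2 = 1 := by
    have h1 := O.rh.nrm
    rcases O.rh.z2 with h2 | h2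
    · rw [h2] at h1
      norm_num at h1
    · nlinarith
  subst hbe2
  have hal1 : al1 = 1 := by
    have := O.det
    linarith
  subst hal1
  have hal2 : al2 = 2 * -B d1 d2 := by
    have := O.adj
    linarith
  subst hal2
  have hca' : 1 < -B t d1 + 2 * -B d1 d2 * -B t d2 := by linarith
  have hfa : 0 ≤ φ d1 + 2 * -B d1 d2 * φ d2 := by
    have := O.fa
    linarith
  have hx : 2 * -B d1 d2 * x1 < x2 := by linarith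
  have hx' : 2 * -B d1 d2 * x1' ≤ x2' := by linarith
  have hR := Pool.Agent.Helper62.DY.rt_of_tri X.L.tri
  have hxm : g • t + x1 • d1 + x2 • d2 ∈ Ψ := by
    rw [← X.e]
    exact X.L.xm
  -- `b2 ≠ 0`
  have hb2 : 1 / 2 ≤ -B t d2 := by
    rcases X.L.lbl.z2 with h | h
    · exfalso
      have h1 := (hR.z1 (hR.r2 _ _ _ hxm) (by linarith [X.p1])).2.2
      rw [h] at h1
      rcases h1 with h1 | h1 <;> linarith
    · linarith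
  -- `x' = a`
  rcases X.c'.zg with hg0 | hg1
  · subst hg0
    have hxo : x1' • d1 + x2' • d2 ∈ Ψ := by
      have := X.L.xm'
      rw [X.e', zero_smul, zero_add] at this
      exact this
    have ho : ORt Ψ B d1 d2 x1' x2' := by
      refine ⟨hxo, X.c'.z1, X.c'.z2, ?_⟩
      have := X.c'.nrm
      linarith
    have hfz := X.c'.fz
    obtain ⟨k1, k2⟩ := O.uniq x1' x2' ho (by linarith)
    subst k1 k2
    exact ha _ _ _ _ _ _ _ _ _ _ X hb2 hO hca' (by linarith) hx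
  -- the index
  have hbO : -B d1 d2 = 1 / 2 ∨ 2 ≤ (2 * -B d1 d2) ^ 2 := by
    rcases hR.bOs with h | h | h
    · linarith
    · left
      linarith
    · exact Or.inr h
  have hidx : Ge2 (-B t d2) (φ d2) := by
    rcases good_or_beyond (-B t d2) (φ d2) with ⟨k, hk⟩ | h
    · left
      have hk1 := hk.pos X.h2
      refine ⟨k, ?_, hk⟩
      rcases Nat.lt_or_ge k 2 with h4 | h4
      · exfalso
        have h5 : k = 1 := by omega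
        subst h5
        exact X.not_good_one' hfa hx hk
      · exact h4
    · exact Or.inr h
  rcases X.L.lbl.z1 with hb1 | hb1
  · have hb1' : -B t d1 = 0 := by linarith
    rcases hbO with h | h
    · exact hc _ _ _ _ _ _ _ _ _ _ _ _ _ X hg1 hb2 hO hca' hfa hx hx' ⟨hb1', h, hidx⟩
    · exact hd _ _ _ _ _ _ _ _ _ _ _ _ _ X hg1 hb2 hO hca' hfa hx hx' ⟨hb1', h, hidx⟩
  · have hb1' : 1 / 2 ≤ -B t d1 := by linarith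
    rcases hbO with h | h
    · rcases hidx with ⟨k, hk2, hk⟩ | hbey
      · rcases Nat.lt_or_ge k 3 with h4 | h4
        · have h5 : k = 2 := by omega
          subst h5
          exact he _ _ _ _ _ _ _ _ _ _ _ _ _ X hg1 hb2 hO hca' hfa hx hx' ⟨hb1', h, Or.inl hk⟩
        · exact hf _ _ _ _ _ _ _ _ _ _ _ _ _ X hg1 hb2 hO hca' hfa hx hx' ⟨hb1', h, k, h4, hk⟩
      · rcases X.L.tri.cp'.lbl2 hb2 with h4 | h4
        · exact he _ _ _ _ _ _ _ _ _ _ _ _ _ X hg1 hb2 hO hca' hfa hx hx'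
            ⟨hb1', h, Or.inr ⟨h4, hbey⟩⟩
        · rcases lt_or_ge (-B t d2) 1 with h5 | h5
          · exact hg _ _ _ _ _ _ _ _ _ _ _ _ _ X hg1 hb2 hO hca' hfa hx hx' ⟨hb1', h, h4, h5, hbey⟩
          · -- `b2 ≥ 1`: `F` is not beyond
            obtain ⟨h6, h7⟩ := X.not_beyond h5
            have h8 := hbey.quad_le h5 h6
            linarith
    · exact hh _ _ _ _ _ _ _ _ _ _ _ _ _ X hg1 hb2 hO hca' hfa hx hx' ⟨hb1', h, hidx⟩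

end DY
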