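import Pool.Agent.Helper32.DY.Fan4
import Pool.Agent.Helper62.DY.LemA3
import Pool.Agent.Helper9.DY.CaseII

/-!
# The fan of a root and the inequality (E0) (MP_d13a5e_al)

`x = (g, x1, x2)` and `y = (g', v, y2)` are two roots (coefficients in the simple system `t, d1, d2`), `y` is the
steeper one, both are zero at the point `F` given by `φ t = 1`, `φ d1 = f ≥ 0`, `φ d2 = -κ < 0`.
-/

set_option autoImplicit false

namespace Pool.Agent.Helper32.DY

open _root_.DY (Z1)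
open Pool.Agent.Helper62.DY (RT)

/-- the two other labels -/
noncomputable def fw (b1 bO : ℝ) (k : ℕ) : ℝ := if k % 2 = 0 then 2 * b1 else 2 * bO

/-- the coefficients of a root in the chambers around `V` -/
noncomputable def fe (b1 b2 bO v y g : ℝ) : ℕ → ℝ
  | 0 => y
  | 1 => g
  | k + 2 => 2 * b2 * fe b1 b2 bO v y g (k + 1) + fw b1 bO (k + 1) * v - fe b1 b2 bO v y g k

theorem fw_two (b1 bO : ℝ) (k : ℕ) : fw b1 bO (k + 2) = fw b1 bO k := by
  unfold fw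
  rw [Nat.add_mod_right]

section

variable {b1 b2 bO : ℝ} {R : ℝ → ℝ → ℝ → Prop}

theorem fe_mem (h : RT b1 b2 bO R) {g v y : ℝ} (hy : R g v y) (k : ℕ) :
    (k % 2 = 0 ∧ R (fe b1 b2 bO v y g (k + 1)) v (fe b1 b2 bO v y g k) ∧
      fw b1 bO k = 2 * b1 ∧ fw b1 bO (k + 1) = 2 * bO) ∨
    (k % 2 = 1 ∧ R (fe b1 b2 bO v y g k) v (fe b1 b2 bO v y g (k + 1)) ∧
      fw b1 bO k = 2 * bO ∧ fw b1 bO (k + 1) = 2 * b1) := by
  induction k with
  | zero => exact Or.inl ⟨rfl, hy, rfl, rfl⟩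
  | succ k ih =>
    have e1 : fe b1 b2 bO v y g (k + 2) = 2 * b2 * fe b1 b2 bO v y g (k + 1) +
        fw b1 bO (k + 1) * v - fe b1 b2 bO v y g k := rfl
    rcases ih with ⟨h0, h1, h2, h3⟩ | ⟨h0, h1, h2, h3⟩
    · right
      refine ⟨by omega, ?_, h3, (fw_two b1 bO k).trans h2⟩
      have h4 := h.r2 _ _ _ h1
      have e2 : 2 * b2 * fe b1 b2 bO v y g (k + 1) + 2 * bO * v - fe b1 b2 bO v y g k =
          fe b1 b2 bO v y g (k + 2) := by rw [e1, h3]
      rw [e2] at h4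
      exact h4
    · left
      refine ⟨by omega, ?_, h3, (fw_two b1 bO k).trans h2⟩
      have h4 := h.r0 _ _ _ h1
      have e2 : 2 * b1 * v + 2 * b2 * fe b1 b2 bO v y g (k + 1) - fe b1 b2 bO v y g k =
          fe b1 b2 bO v y g (k + 2) := by
        rw [e1, h3]
        ring
      rw [e2] at h4
      exact h4

theorem fe_z (h : RT b1 b2 bO R) {g v y : ℝ} (hy : R g v y) (hv : 0 < v) (k : ℕ) :
    Z1 (fe b1 b2 bO v y g k) := by
  rcases fe_mem h hy k with ⟨-, h1, -⟩ | ⟨-, h1, -⟩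
  · exact (h.z1 h1 hv).2.2
  · exact (h.z1 h1 hv).1

theorem fe_n (h : RT b1 b2 bO R) {g v y : ℝ} (hy : R g v y) (k : ℕ) :
    fe b1 b2 bO v y g k ^ 2 + fe b1 b2 bO v y g (k + 1) ^ 2 + v ^ 2 -
      2 * b2 * fe b1 b2 bO v y g k * fe b1 b2 bO v y g (k + 1) -
      fw b1 bO (k + 1) * v * fe b1 b2 bO v y g k -
      fw b1 bO k * v * fe b1 b2 bO v y g (k + 1) = 1 := by
  rcases fe_mem h hy k with ⟨-, h1, h2, h3⟩ | ⟨-, h1, h2, h3⟩
  · rw [h2, h3]
    linear_combination h.n _ _ _ h1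
  · rw [h2, h3]
    linear_combination h.n _ _ _ h1

/-- the reflected coefficient -/
theorem fe_r (h : RT b1 b2 bO R) {g v y : ℝ} (hy : R g v y) (k : ℕ) :
    let E := fe b1 b2 bO v y g
    let r := fw b1 bO (k + 1) * E k + fw b1 bO k * E (k + 1) - v
    (Z1 (E k) ∧ Z1 (E (k + 1)) ∧ Z1 r) ∨ (Z1 (-E k) ∧ Z1 (-E (k + 1)) ∧ Z1 (-r)) := by
  intro E r
  rcases fe_mem h hy k with ⟨-, h1, h2, h3⟩ | ⟨-, h1, h2, h3⟩
  · have h4 := h.r1 _ _ _ h1
    have e1 : 2 * b1 * fe b1 b2 bO v y g (k + 1) + 2 * bO * fe b1 b2 bO v y g k - v = r := by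
      show _ = fw b1 bO (k + 1) * E k + fw b1 bO k * E (k + 1) - v
      rw [h2, h3]
      ring
    rw [e1] at h4
    rcases h.z _ _ _ h4 with ⟨a, b, c⟩ | ⟨a, b, c⟩
    · exact Or.inl ⟨c, a, b⟩
    · exact Or.inr ⟨c, a, b⟩
  · have h4 := h.r1 _ _ _ h1
    have e1 : 2 * b1 * fe b1 b2 bO v y g k + 2 * bO * fe b1 b2 bO v y g (k + 1) - v = r := by
      show _ = fw b1 bO (k + 1) * E k + fw b1 bO k * E (k + 1) - v
      rw [h2, h3]
    rw [e1] at h4
    rcases h.z _ _ _ h4 with ⟨a, b, c⟩ | ⟨a, b, c⟩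
    · exact Or.inl ⟨a, c, b⟩
    · exact Or.inr ⟨a, c, b⟩

theorem z1_nonneg {α : ℝ} (h : Z1 α) : 0 ≤ α := by
  rcases h with h | h <;> linarith

theorem z1_one {α : ℝ} (h : Z1 α) (h0 : 0 < α) : 1 ≤ α := by
  rcases h with h | h
  · exact absurd h h0.ne'
  · exact h

/-- the form of two roots in coordinates -/
def bf (b1 b2 bO g x1 x2 g' v y2 : ℝ) : ℝ :=
  g * g' + x1 * v + x2 * y2 - b1 * (g * v + x1 * g') - b2 * (g * y2 + x2 * g') -
    bO * (x1 * y2 + x2 * v)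

/-- the value of `kappa s_k - s_(k-1)` -/
noncomputable def fm (b2 κ : ℝ) : ℕ → ℝ
  | 0 => 1
  | k + 1 => κ * _root_.DY.sq b2 (k + 1) - _root_.DY.sq b2 k

theorem fm_rec (b2 κ : ℝ) (k : ℕ) : fm b2 κ (k + 2) = 2 * b2 * fm b2 κ (k + 1) - fm b2 κ k := by
  cases k with
  | zero =>
    show κ * (2 * b2 * 1 - 0) - 1 = 2 * b2 * (κ * 1 - 0) - 1
    ring
  | succ k =>
    show κ * (2 * b2 * _root_.DY.sq b2 (k + 2) - _root_.DY.sq b2 (k + 1)) -
      (2 * b2 * _root_.DY.sq b2 (k + 1) - _root_.DY.sq b2 k) =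
      2 * b2 * (κ * _root_.DY.sq b2 (k + 2) - _root_.DY.sq b2 (k + 1)) -
      (κ * _root_.DY.sq b2 (k + 1) - _root_.DY.sq b2 k)
    ring

/-- the data of two roots through `F`, `y` is steeper -/
structure Two (b1 b2 bO : ℝ) (R : ℝ → ℝ → ℝ → Prop) (κ f g x1 x2 g' v y2 : ℝ) : Prop where
  h : RT b1 b2 bO R
  hx : R g x1 x2
  hy : R g' v y2
  p1 : 1 ≤ x1
  v1 : 1 ≤ v
  p2 : 0 ≤ x2
  q2 : 1 ≤ y2
  fx : g = κ * x2 - f * x1
  fy : g' = κ * y2 - f * v
  hf : 0 ≤ f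
  hκ : 0 < κ
  st : x2 * v < y2 * x1
  hB : bf b1 b2 bO g x1 x2 g' v y2 ≤ 0
  obt : g' ≤ b1 * v + b2 * y2

namespace Two

variable {κ f g x1 x2 g' v y2 : ℝ}

theorem cross (T : Two b1 b2 bO R κ f g x1 x2 g' v y2) (k : ℕ) :
    (fe b1 b2 bO v y2 g' k * x1 - fe b1 b2 bO x1 x2 g k * v = fm b2 κ k * (y2 * x1 - x2 * v)) ∧
    (fe b1 b2 bO v y2 g' (k + 1) * x1 - fe b1 b2 bO x1 x2 g (k + 1) * v =
      fm b2 κ (k + 1) * (y2 * x1 - x2 * v)) := by
  induction k with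
  | zero =>
    constructor
    · show y2 * x1 - x2 * v = 1 * (y2 * x1 - x2 * v)
      ring
    · show g' * x1 - g * v = (κ * 1 - 0) * (y2 * x1 - x2 * v)
      rw [T.fx, T.fy]
      ring
  | succ k ih =>
    refine ⟨ih.2, ?_⟩
    have e1 : fe b1 b2 bO v y2 g' (k + 1 + 1) = 2 * b2 * fe b1 b2 bO v y2 g' (k + 1) +
        fw b1 bO (k + 1) * v - fe b1 b2 bO v y2 g' k := rfl
    have e2 : fe b1 b2 bO x1 x2 g (k + 1 + 1) = 2 * b2 * fe b1 b2 bO x1 x2 g (k + 1) +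
        fw b1 bO (k + 1) * x1 - fe b1 b2 bO x1 x2 g k := rfl
    rw [e1, e2, fm_rec]
    linear_combination 2 * b2 * ih.2 - ih.1

/-- the form is the same in all chambers of the fan -/
theorem form (T : Two b1 b2 bO R κ f g x1 x2 g' v y2) (k : ℕ) :
    fe b1 b2 bO x1 x2 g k * fe b1 b2 bO v y2 g' k +
      fe b1 b2 bO x1 x2 g (k + 1) * fe b1 b2 bO v y2 g' (k + 1) + x1 * v -
      b2 * (fe b1 b2 bO x1 x2 g k * fe b1 b2 bO v y2 g' (k + 1) +
        fe b1 b2 bO x1 x2 g (k + 1) * fe b1 b2 bO v y2 g' k) -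
      fw b1 bO (k + 1) / 2 * (fe b1 b2 bO x1 x2 g k * v + x1 * fe b1 b2 bO v y2 g' k) -
      fw b1 bO k / 2 * (fe b1 b2 bO x1 x2 g (k + 1) * v + x1 * fe b1 b2 bO v y2 g' (k + 1)) ≤ 0 := by
  have key : fe b1 b2 bO x1 x2 g k * fe b1 b2 bO v y2 g' k +
      fe b1 b2 bO x1 x2 g (k + 1) * fe b1 b2 bO v y2 g' (k + 1) + x1 * v -
      b2 * (fe b1 b2 bO x1 x2 g k * fe b1 b2 bO v y2 g' (k + 1) +
        fe b1 b2 bO x1 x2 g (k + 1) * fe b1 b2 bO v y2 g' k) -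
      fw b1 bO (k + 1) / 2 * (fe b1 b2 bO x1 x2 g k * v + x1 * fe b1 b2 bO v y2 g' k) -
      fw b1 bO k / 2 * (fe b1 b2 bO x1 x2 g (k + 1) * v + x1 * fe b1 b2 bO v y2 g' (k + 1)) =
      bf b1 b2 bO g x1 x2 g' v y2 := by
    induction k with
    | zero =>
      show x2 * y2 + g * g' + x1 * v - b2 * (x2 * g' + g * y2) - (2 * bO) / 2 * (x2 * v + x1 * y2) -
        (2 * b1) / 2 * (g * v + x1 * g') = _
      unfold bf
      ring
    | succ k ih =>
      rw [← ih]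
      have e1 : fe b1 b2 bO v y2 g' (k + 1 + 1) = 2 * b2 * fe b1 b2 bO v y2 g' (k + 1) +
          fw b1 bO (k + 1) * v - fe b1 b2 bO v y2 g' k := rfl
      have e2 : fe b1 b2 bO x1 x2 g (k + 1 + 1) = 2 * b2 * fe b1 b2 bO x1 x2 g (k + 1) +
          fw b1 bO (k + 1) * x1 - fe b1 b2 bO x1 x2 g k := rfl
      have e3 : fw b1 bO (k + 1 + 1) = fw b1 bO k := fw_two b1 bO k
      rw [e1, e2, e3]
      ring
  rw [key]
  exact T.hB

/-- `B(y, κ t + d2) > 0` -/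
theorem b_pos (T : Two b1 b2 bO R κ f g x1 x2 g' v y2) :
    0 < (2 * y2 - 2 * b2 * g' - 2 * bO * v) - κ * (2 * b1 * v + 2 * b2 * y2 - 2 * g') := by
  have hn := T.h.n _ _ _ T.hy
  have hD : 0 < y2 * x1 - x2 * v := by linarith [T.st]
  have h1 : (y2 * x1 - x2 * v) * ((2 * y2 - 2 * b2 * g' - 2 * bO * v) -
      κ * (2 * b1 * v + 2 * b2 * y2 - 2 * g')) = 2 * x1 - 2 * v * bf b1 b2 bO g x1 x2 g' v y2 := by
    have hfx : κ * x2 = g + f * x1 := by linarith [T.fx]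
    have hfy : κ * y2 = g' + f * v := by linarith [T.fy]
    have h2 : κ * (y2 * x1 - x2 * v) = g' * x1 - g * v := by
      linear_combination x1 * hfy - v * hfx
    unfold bf
    linear_combination (-(2 * b1 * v + 2 * b2 * y2 - 2 * g')) * h2 + 2 * x1 * hn
  have h3 : 0 < (y2 * x1 - x2 * v) * ((2 * y2 - 2 * b2 * g' - 2 * bO * v) -
      κ * (2 * b1 * v + 2 * b2 * y2 - 2 * g')) := by
    rw [h1]
    have := mul_nonpos_of_nonneg_of_nonpos (by linarith [T.v1] : 0 ≤ v) T.hB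
    linarith [T.p1]
  exact (mul_pos_iff_of_pos_left hD).1 h3

/-- differences of the fan -/
theorem diff (T : Two b1 b2 bO R κ f g x1 x2 g' v y2) (k : ℕ) :
    let E := fe b1 b2 bO v y2 g'
    let δ := 2 * b1 * v + 2 * b2 * y2 - 2 * g'
    let c := (2 * y2 - 2 * b2 * g' - 2 * bO * v) - κ * (2 * b1 * v + 2 * b2 * y2 - 2 * g')
    E k - E (k + 2) = fm b2 κ (k + 1) * δ + _root_.DY.sq b2 (k + 1) * c ∧
      E (k + 1) - E (k + 3) = fm b2 κ (k + 2) * δ + _root_.DY.sq b2 (k + 2) * c := by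
  intro E δ c
  induction k with
  | zero =>
    constructor
    · show y2 - (2 * b2 * g' + (2 * bO) * v - y2) = (κ * 1 - 0) * δ + 1 * c
      ring
    · show g' - (2 * b2 * (2 * b2 * g' + (2 * bO) * v - y2) + (2 * b1) * v - g') =
        (κ * (2 * b2 * 1 - 0) - 1) * δ + (2 * b2 * 1 - 0) * c
      ring
  | succ k ih =>
    refine ⟨ih.2, ?_⟩
    have e1 : E (k + 1 + 1) = 2 * b2 * E (k + 1) + fw b1 bO (k + 1) * v - E k := rfl
    have e2 : E (k + 1 + 3) = 2 * b2 * E (k + 3) + fw b1 bO (k + 3) * v - E (k + 2) := rfl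
    have e3 : fw b1 bO (k + 3) = fw b1 bO (k + 1) := fw_two b1 bO (k + 1)
    have e4 : fm b2 κ (k + 1 + 2) = 2 * b2 * fm b2 κ (k + 1 + 1) - fm b2 κ (k + 1) :=
      fm_rec b2 κ (k + 1)
    have e5 : _root_.DY.sq b2 (k + 1 + 2) = 2 * b2 * _root_.DY.sq b2 (k + 1 + 1) -
        _root_.DY.sq b2 (k + 1) := rfl
    have e6 : E (k + 2) = E (k + 1 + 1) := rfl
    rw [e1, e2, e3, e4, e5]
    have i1 := ih.1
    have i2 := ih.2
    have e7 : fm b2 κ (k + 2) = fm b2 κ (k + 1 + 1) := rfl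
    have e8 : _root_.DY.sq b2 (k + 2) = _root_.DY.sq b2 (k + 1 + 1) := rfl
    rw [e7, e8] at i2
    linear_combination 2 * b2 * i2 - i1

/-- the labels at `d1` are not both zero -/
theorem w_pos (T : Two b1 b2 bO R κ f g x1 x2 g' v y2) (k : ℕ) :
    0 ≤ fw b1 bO k ∧ 0 ≤ fw b1 bO (k + 1) ∧ 0 < fw b1 bO k + fw b1 bO (k + 1) := by
  have hb1 := T.h.b1n
  have hbO := T.h.bOn
  have hpos : 0 < b1 + bO := by
    by_contra hcon
    have h1 : b1 = 0 := by linarith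
    have h2 : bO = 0 := by linarith
    have h3 := T.h.r1 _ _ _ T.hy
    have e1 : 2 * b1 * g' + 2 * bO * y2 - v = -v := by
      rw [h1, h2]
      ring
    rw [e1] at h3
    have h4 := (T.h.z2 h3 (by linarith [T.q2])).2.1
    have := z1_nonneg h4
    linarith [T.v1]
  rcases Nat.mod_two_eq_zero_or_one k with hk | hk
  · have e1 : fw b1 bO k = 2 * b1 := by unfold fw; rw [if_pos hk]
    have e2 : fw b1 bO (k + 1) = 2 * bO := by unfold fw; rw [if_neg (by omega)]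
    rw [e1, e2]
    exact ⟨by linarith, by linarith, by linarith⟩
  · have e1 : fw b1 bO k = 2 * bO := by unfold fw; rw [if_neg (by omega)]
    have e2 : fw b1 bO (k + 1) = 2 * b1 := by unfold fw; rw [if_pos (by omega)]
    rw [e1, e2]
    exact ⟨by linarith, by linarith, by linarith⟩

/-- positivity of the fan values -/
theorem e_pos (T : Two b1 b2 bO R κ f g x1 x2 g' v y2) {k : ℕ} (hk : 0 < fm b2 κ k) :
    1 ≤ fe b1 b2 bO v y2 g' k := by
  have hx1 := T.p1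
  have hv := T.v1
  apply z1_one (fe_z T.h T.hy (by linarith) k)
  have h1 := (T.cross k).1
  have h2 := z1_nonneg (fe_z T.h T.hx (by linarith) k)
  have h3 : 0 < fm b2 κ k * (y2 * x1 - x2 * v) := mul_pos hk (by linarith [T.st])
  have h4 : 0 ≤ fe b1 b2 bO x1 x2 g k * v := mul_nonneg h2 (by linarith)
  have h5 : 0 < fe b1 b2 bO v y2 g' k * x1 := by linarith
  exact (mul_pos_iff_of_pos_right (by linarith)).1 h5

/-- the reflected coefficient of the steeper root -/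
theorem r_pos (T : Two b1 b2 bO R κ f g x1 x2 g' v y2) {k : ℕ} (hk : 0 < fm b2 κ k)
    (hk1 : 0 < fm b2 κ (k + 1)) :
    v + 1 ≤ fw b1 bO (k + 1) * fe b1 b2 bO v y2 g' k + fw b1 bO k * fe b1 b2 bO v y2 g' (k + 1) := by
  have hx1 := T.p1
  have hv := T.v1
  have hE := T.e_pos hk
  obtain ⟨hw0, hw1, hw2⟩ := T.w_pos k
  have hry : Z1 (fw b1 bO (k + 1) * fe b1 b2 bO v y2 g' k +
      fw b1 bO k * fe b1 b2 bO v y2 g' (k + 1) - v) := by
    rcases fe_r T.h T.hy k with ⟨-, -, h3⟩ | ⟨h1, -, -⟩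
    · exact h3
    · exfalso
      have := z1_nonneg h1
      linarith
  suffices h0 : 0 < fw b1 bO (k + 1) * fe b1 b2 bO v y2 g' k +
      fw b1 bO k * fe b1 b2 bO v y2 g' (k + 1) - v by
    have := z1_one hry h0
    linarith
  have hfk := z1_nonneg (fe_z T.h T.hx (by linarith) k)
  have hfk1 := z1_nonneg (fe_z T.h T.hx (by linarith) (k + 1))
  rcases fe_r T.h T.hx k with ⟨-, -, h3⟩ | ⟨h1, h2, -⟩
  · have h4 := z1_nonneg h3
    obtain ⟨c1, c2⟩ := T.cross k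
    have h5 : 0 < (fw b1 bO (k + 1) * fm b2 κ k + fw b1 bO k * fm b2 κ (k + 1)) *
        (y2 * x1 - x2 * v) := by
      apply mul_pos _ (by linarith [T.st])
      rcases hw0.lt_or_eq with h6 | h6
      · have h7 := mul_pos h6 hk1
        have h8 := mul_nonneg hw1 hk.le
        linarith
      · have h7 := mul_pos (by linarith : 0 < fw b1 bO (k + 1)) hk
        have h8 := mul_nonneg hw0 hk1.le
        linarith
    have h6 : 0 ≤ (fw b1 bO (k + 1) * fe b1 b2 bO x1 x2 g k +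
        fw b1 bO k * fe b1 b2 bO x1 x2 g (k + 1) - x1) * v := mul_nonneg h4 (by linarith)
    have h7 : 0 < (fw b1 bO (k + 1) * fe b1 b2 bO v y2 g' k +
        fw b1 bO k * fe b1 b2 bO v y2 g' (k + 1) - v) * x1 := by
      have h8 : (fw b1 bO (k + 1) * fe b1 b2 bO v y2 g' k +
        fw b1 bO k * fe b1 b2 bO v y2 g' (k + 1) - v) * x1 =
        (fw b1 bO (k + 1) * fe b1 b2 bO x1 x2 g k +
        fw b1 bO k * fe b1 b2 bO x1 x2 g (k + 1) - x1) * v +
        (fw b1 bO (k + 1) * fm b2 κ k + fw b1 bO k * fm b2 κ (k + 1)) * (y2 * x1 - x2 * v) := by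
        linear_combination fw b1 bO (k + 1) * c1 + fw b1 bO k * c2
      rw [h8]
      linarith
    exact (mul_pos_iff_of_pos_right (by linarith)).1 h7
  · -- `x` is the wall
    have h3 := z1_nonneg h1
    have h4 := z1_nonneg h2
    have h5 : fe b1 b2 bO x1 x2 g k = 0 := by linarith
    have h6 : fe b1 b2 bO x1 x2 g (k + 1) = 0 := by linarith
    have h7 := T.form k
    rw [h5, h6] at h7
    have h8 : x1 * (2 * v) ≤ x1 * (fw b1 bO (k + 1) * fe b1 b2 bO v y2 g' k +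
        fw b1 bO k * fe b1 b2 bO v y2 g' (k + 1)) := by nlinarith
    have h9 := le_of_mul_le_mul_left h8 (by linarith)
    linarith

end Two

end

end Pool.Agent.Helper32.DY
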