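import Pool.Agent.Helper32.DY.Ineq

/-!
# Case II of `Loc`: the block (E0) (MP_d13a5e_al)

`E0Stat`: if `φ d1 ≥ 0 > φ d2` then `ρ d1 < φ d1`.
-/

set_option autoImplicit false

namespace DY

open Set

variable {E : Type*} [AddCommGroup E] [Module ℝ E]
variable {Ψ : Set E} {B : E →ₗ[ℝ] E →ₗ[ℝ] ℝ} {ρ φ : E →ₗ[ℝ] ℝ} {t d1 d2 x x' : E}

open Pool.Agent.Helper32.DY (Two fm fw fe bf z1_nonneg z1_one)
open Pool.Agent.Helper62.DY (RT rt_of_tri)

/-- no root of the plane of `t` and `d2` is zero at `F` -/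
private theorem no_zero32 (L : Loc Ψ B ρ φ t d1 d2 x x') {g x1 x2 g' v y2 : ℝ}
    (e : x = g • t + x1 • d1 + x2 • d2) (e' : x' = g' • t + v • d1 + y2 • d2) (p1 : 1 ≤ x1)
    (v1 : 1 ≤ v) {α β : ℝ} (hu : α • t + β • d2 ∈ Ψ) (hφ : φ (α • t + β • d2) = 0) : False := by
  obtain ⟨γ, δ, h⟩ := L.sp _ hu
  rw [hφ, zero_smul, add_zero] at h
  have h1 : α • t + (0 : ℝ) • d1 + β • d2 =
      (γ * g + δ * g') • t + (γ * x1 + δ * v) • d1 + (γ * x2 + δ * y2) • d2 := by
    have e1 : α • t + (0 : ℝ) • d1 + β • d2 = α • t + β • d2 := by module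
    rw [e1, h, e, e']
    module
  obtain ⟨-, h2, -⟩ := L.tri.coordW h1
  rcases L.cxx _ hu γ δ h with (⟨h5, h6⟩ | ⟨h5, h6⟩ | ⟨h5, h6⟩) | (⟨h5, h6⟩ | ⟨h5, h6⟩ | ⟨h5, h6⟩)
  · rw [h5, h6] at h2
    linarith only [v1, h2]
  · rw [h5, h6] at h2
    linarith only [p1, h2]
  · nlinarith only [p1, v1, h2, h5, h6]
  · have h7 : γ = 0 := by linarith only [h5]
    have h8 : δ = -1 := by linarith only [h6]
    rw [h7, h8] at h2
    linarith only [v1, h2]
  · have h7 : γ = -1 := by linarith only [h5]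
    have h8 : δ = 0 := by linarith only [h6]
    rw [h7, h8] at h2
    linarith only [p1, h2]
  · nlinarith only [p1, v1, h2, h5, h6]

/-- beyond a vertex of finite order, `x = d1` -/
private theorem beyond32 {b1 b2 bO : ℝ} {R : ℝ → ℝ → ℝ → Prop} {κ f g x1 x2 g' v y2 : ℝ}
    (T : Two b1 b2 bO R κ f g x1 x2 g' v y2) (hb : 1 ≤ 2 * b2) (hg : 2 * b2 * y2 < g') :
    1 + b2 * y2 < g' := by
  by_contra hcon
  have hcon := not_lt.1 hcon
  have hv := T.v1
  have hy := T.q2
  have hV : v + 1 ≤ 2 * bO * y2 + 2 * b1 * g' := T.r_pos (k := 0) one_pos (by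
    show 0 < κ * 1 - 0
    linarith only [T.hκ])
  have hn := T.h.n _ _ _ T.hy
  have hobt := T.obt
  have hb1 : 1 ≤ 2 * b1 := by
    rcases T.h.b1z with h1 | h1
    · exfalso
      have h2 : b1 = 0 := by linarith only [h1]
      rw [h2] at hobt
      have h3 : 0 < b2 * y2 := mul_pos (by linarith only [hb]) (by linarith only [hy])
      linarith only [hg, hobt, h3]
    · exact h1
  have hbO := T.h.bOn
  have h1 : 0 ≤ (v - 1) * (2 * bO * y2 + 2 * b1 * g' - v - 1) := mul_nonneg (by linarith only [hv]) (by linarith only [hV])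
  have hg0 : 0 < g' := by
    have : 0 < 2 * b2 * y2 := mul_pos (by linarith only [hb]) (by linarith only [hy])
    linarith only [hg, this]
  have h2 : g' + 2 * bO * y2 ≤ g' ^ 2 + y2 ^ 2 - 2 * b2 * g' * y2 := by
    have h3 : g' ≤ 2 * b1 * g' := by nlinarith only [hb1, hg0]
    nlinarith
  -- `g' (g' - μ y2 - 1) ≤ g' (- μ y2 / 2) ≤ - μ² y2² / 2`
  have h3 : g' * (g' - 2 * b2 * y2 - 1) ≤ g' * (-(b2 * y2)) :=
    mul_le_mul_of_nonneg_left (by linarith only [hcon]) hg0.le
  have h4 : (2 * b2 * y2) * (b2 * y2) ≤ g' * (b2 * y2) := by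
    apply mul_le_mul_of_nonneg_right hg.le
    exact mul_nonneg (by linarith only [hb]) (by linarith only [hy])
  have h5 : 2 * bO * y2 ≤ y2 * (y2 * (1 - 2 * b2 ^ 2)) := by nlinarith only [h2, h3, h4]
  have h6 : 2 * bO ≤ y2 * (1 - 2 * b2 ^ 2) := by
    have : y2 * (2 * bO) ≤ y2 * (y2 * (1 - 2 * b2 ^ 2)) := by linarith only [h5]
    exact le_of_mul_le_mul_left this (by linarith only [hy])
  rcases (T.h.swap.swap0).bOs with h7 | h7 | h7
  · linarith only [hb, h7]
  · -- order three
    have hb2 : b2 = 1 / 2 := by linarith only [h7]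
    have hy2 : y2 < 2 := by
      rw [hb2] at hg hcon
      linarith only [hg, hcon]
    have hbO0 : bO = 0 := by
      rcases T.h.bOz with h8 | h8
      · linarith only [h8]
      · rw [hb2] at h6
        nlinarith only [h6, hy2, h8]
    have h9 : Z1 (fe b1 b2 bO v y2 g' 2) := Pool.Agent.Helper32.DY.fe_z T.h T.hy (by linarith only [hv]) 2
    have h10 : fe b1 b2 bO v y2 g' 2 = 2 * b2 * g' + 2 * bO * v - y2 := rfl
    rw [h10, hb2, hbO0] at h9
    rw [hb2] at hg hcon
    have h11 := z1_one h9 (by linarith only [hg])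
    linarith only [hcon, hy, h11]
  · -- `μ² ≥ 2`: all inequalities are equalities
    have h8 : y2 * (1 - 2 * b2 ^ 2) ≤ 0 := mul_nonpos_of_nonneg_of_nonpos (by linarith only [hy]) (by nlinarith only [h7])
    have h9 : (2 * b2 * y2) * (b2 * y2) < g' * (b2 * y2) := by
      apply mul_lt_mul_of_pos_right hg
      exact mul_pos (by linarith only [hb]) (by linarith only [hy])
    nlinarith only [hy, hbO, h2, h3, h8, h9]

/-- the tie `P = O`, a right angle at `V` -/
private theorem tie32 (L : Loc Ψ B ρ φ t d1 d2 x x') {v y2 κ : ℝ} (e : x = d1)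
    (e' : x' = (1 : ℝ) • t + v • d1 + y2 • d2) (h2 : φ d2 = -κ) (hκ : 0 < κ) (hb2 : B t d2 = 0)
    (r1 : ρ d1 = 0) (r2 : ρ d2 = 0) (f0 : φ d1 = 0) (hy : 1 ≤ y2) (hv : 1 ≤ v) (hκy : κ * y2 = 1)
    (obt : 1 ≤ -B t d1 * v) (hn : v ^ 2 + y2 ^ 2 = 2 * -B t d1 * v + 2 * -B d1 d2 * v * y2)
    (hr2 : 0 ≤ 2 * -B d1 d2 * v - y2) (hB : v ≤ -B t d1 + -B d1 d2 * y2)
    (hbp : -B d1 d2 * v < y2) : False := by
  obtain ⟨b1, hb1⟩ : ∃ b1, b1 = -B t d1 := ⟨_, rfl⟩
  obtain ⟨bO, hbO⟩ : ∃ bO, bO = -B d1 d2 := ⟨_, rfl⟩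
  have hR := rt_of_tri L.tri
  have hOz := hR.bOz
  rw [← hb1, ← hbO] at hR
  rw [← hbO] at hOz
  rw [← hb1] at obt hn hB
  rw [← hbO] at hn hr2 hB hbp
  have hb1p : 0 < b1 := by
    by_contra hcon
    have := mul_nonpos_of_nonpos_of_nonneg (not_lt.1 hcon) (by linarith only [hv] : 0 ≤ v)
    linarith only [obt, this]
  have hbOp : 0 < bO := by
    by_contra hcon
    have := mul_nonpos_of_nonpos_of_nonneg (not_lt.1 hcon) (by linarith only [hv] : 0 ≤ v)
    linarith only [hbp, hr2, this]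
  have hprod : y2 * (2 * bO * v - y2) = v * (v - 2 * b1) := by linear_combination -hn
  have hv2 : 2 * b1 ≤ v := by
    by_contra hcon
    have h3 := mul_neg_of_pos_of_neg (by linarith only [hv] : 0 < v) (by linarith only [not_le.1 hcon] : v - 2 * b1 < 0)
    have h4 := mul_nonneg (by linarith only [hbp, hr2] : 0 ≤ y2) hr2
    linarith only [hprod, h3, h4]
  have hvy : v ≤ y2 := by
    have h3 : v * v ≤ v * (b1 + bO * y2) := mul_le_mul_of_nonneg_left hB (by linarith only [hb1p, hv2])
    have h4 : v ^ 2 ≤ y2 ^ 2 := by nlinarith only [hprod, h3]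
    have := sq_le_sq.1 h4
    rwa [abs_of_nonneg (by linarith only [hb1p, hv2]), abs_of_nonneg (by linarith only [hbp, hr2])] at this
  rcases hv2.eq_or_lt with hv3 | hv3
  · -- `x' = t + 2 b1 (d1 + 2 bO d2)`
    have hy2 : y2 = 2 * bO * v := by
      rw [← hv3] at hprod
      have h3 : y2 * (2 * bO * (2 * b1) - y2) = 0 := by rw [hprod]; ring
      rcases mul_eq_zero.1 h3 with h4 | h4
      · linarith only [hb1p, hvy, hv3, h4]
      · rw [← hv3]
        linarith only [h4]
    have hm : (0 : ℝ) • t + (1 : ℝ) • d1 + (2 * bO) • d2 ∈ Ψ := by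
      have h3 := hR.r2 _ _ _ hR.e1
      have e1 : 2 * -B t d2 * 0 + 2 * bO * 1 - 0 = 2 * bO := by ring
      rw [e1] at h3
      exact h3
    have h4 : (0 : ℝ) • t + (1 : ℝ) • d1 + (2 * bO) • d2 =
        (1 / (2 * b1)) • x' + (-(1 / (2 * b1))) • t := by
      rw [e', hy2, ← hv3]
      match_scalars <;> field_simp <;> ring
    have h5 : 0 < 1 / (2 * b1) := by positivity
    rcases L.cxt' _ hm _ _ h4 with (⟨h6, h7⟩ | ⟨h6, h7⟩ | ⟨h6, h7⟩) | (⟨h6, h7⟩ | ⟨h6, h7⟩ | ⟨h6, h7⟩)
    all_goals linarith only [h6, h7]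
  · -- `4 b1 bO < y2`
    have hlt : 4 * b1 * bO < y2 := by
      by_contra hcon
      have hcon := not_lt.1 hcon
      have h3 : 0 ≤ (v - 2 * b1) * (v - 8 * b1 * bO ^ 2) := by
        have h4 : (v - 2 * b1) * (v - 8 * b1 * bO ^ 2) =
            (4 * b1 * bO - y2) * (4 * b1 * bO + y2 - 2 * bO * v) := by
          linear_combination hn
        rw [h4]
        apply mul_nonneg (by linarith only [hcon])
        linarith only [hbp, hcon]
      have h5 : 8 * b1 * bO ^ 2 ≤ v := by
        by_contra hcon2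
        have := mul_neg_of_pos_of_neg (by linarith only [hv3] : 0 < v - 2 * b1)
          (by linarith only [not_le.1 hcon2] : v - 8 * b1 * bO ^ 2 < 0)
        linarith only [h3, this]
      have h6 : (4 * b1 * bO) * (2 * bO) ≤ (4 * b1 * bO) * 1 := by
        have : 8 * b1 * bO ^ 2 ≤ 4 * b1 * bO := by linarith only [hvy, hcon, h5]
        linarith only [this]
      have h7 : 2 * bO ≤ 1 := le_of_mul_le_mul_left h6 (by positivity)
      rcases hOz with h8 | h8
      · linarith only [hbOp, h8]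
      · have h9 : bO = 1 / 2 := by linarith only [h7, h8]
        rw [h9] at hcon
        linarith
    -- the root `2 bO d1 + d2`
    have hm : (0 : ℝ) • t + (2 * bO) • d1 + (1 : ℝ) • d2 ∈ Ψ := by
      have h3 := hR.r1 _ _ _ hR.e2
      have e1 : 2 * b1 * 0 + 2 * bO * 1 - 0 = 2 * bO := by ring
      rw [e1] at h3
      exact h3
    obtain ⟨n, hne⟩ : ∃ n, n = (0 : ℝ) • t + (2 * bO) • d1 + (1 : ℝ) • d2 := ⟨_, rfl⟩
    rw [← hne] at hm
    have hnp : n ∈ C01 t d1 d2 := ⟨0, 2 * bO, 1, hne, Or.inl rfl, hOz, Or.inr le_rfl⟩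
    have hnt : n ≠ t := by
      intro h3
      have h4 : (0 : ℝ) • t + (2 * bO) • d1 + (1 : ℝ) • d2 = (1 : ℝ) • t + (0 : ℝ) • d1 + (0 : ℝ) • d2 := by
        rw [← hne, h3]
        module
      have := (L.tri.coordW h4).1
      norm_num at this
    have hs := L.str n hm hnp hnt
    have hBn : -B t n = 2 * b1 * bO := by
      rw [hne]
      simp only [map_add, map_smul, smul_eq_mul]
      rw [hb2, hb1]
      ring
    have hfn : φ n = -κ := by
      rw [hne, L.val_φ, f0, h2]
      ring
    have hrn : ρ n = 0 := by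
      rw [hne, L.val_ρ, r1, r2]
      ring
    rw [hBn, hfn, hrn] at hs
    have hc : 0 < 2 * b1 * bO := by positivity
    have h3 := hs.nk (by linarith only [hκ]) 1 (by
      intro i hi
      interval_cases i
      · show (0 : ℝ) < 1
        norm_num
      · show 0 < 2 * (2 * b1 * bO) * 1 - 0
        linarith only [hc]) (by
      intro i hi
      interval_cases i
      show (1 : ℝ) * -κ + 0 ≤ 0
      linarith only [hκ]) (by
      show 0 < (2 * (2 * b1 * bO) * 1 - 0) * -κ + 1
      have h4 : κ * (4 * b1 * bO) < κ * y2 := mul_lt_mul_of_pos_left hlt hκ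
      nlinarith only [hκy, h4])
    have h4 : sq (2 * b1 * bO) (1 + 1) * 0 + sq (2 * b1 * bO) 1 = 1 := by
      show (2 * (2 * b1 * bO) * 1 - 0) * 0 + 1 = 1
      ring
    rw [h4] at h3
    exact lt_irrefl _ h3

private theorem e0_aux32 (L : Loc Ψ B ρ φ t d1 d2 x x') (h1 : 0 ≤ φ d1) (h2 : φ d2 < 0)
    (hG : φ d1 ≤ ρ d1) {g x1 x2 g' v y2 : ℝ}
    (e : x = g • t + x1 • d1 + x2 • d2) (e' : x' = g' • t + v • d1 + y2 • d2)
    (c : Crd (-B t d1) (-B t d2) (-B d1 d2) (-φ d1) (-φ d2) g x1 x2)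
    (c' : Crd (-B t d1) (-B t d2) (-B d1 d2) (-φ d1) (-φ d2) g' v y2)
    (rx : ρ x = g + x1 * ρ d1 + x2 * ρ d2) (rx' : ρ x' = g' + v * ρ d1 + y2 * ρ d2)
    (st : x2 * v < y2 * x1) : False := by
  have p1 : 1 ≤ x1 := by
    rcases c.z1 with h | h
    · exact (L.x1_ne L.cxt L.fx h2 e (z1_nonneg c.zg) (z1_nonneg c.z2) h).elim
    · exact h
  have v1 : 1 ≤ v := by
    rcases c'.z1 with h | h
    · exact (L.x1_ne L.cxt' L.fx' h2 e' (z1_nonneg c'.zg) (z1_nonneg c'.z2) h).elim
    · exact h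
  have p2 := z1_nonneg c.z2
  have q2 : 1 ≤ y2 := by
    apply z1_one c'.z2
    have h3 : 0 ≤ x2 * v := mul_nonneg p2 (by linarith only [v1])
    exact (mul_pos_iff_of_pos_right (by linarith only [p1])).1 (lt_of_le_of_lt h3 st)
  have hBxx := L.cxx.nonpos L.tri.sys L.xm L.xm'
  have T : Two (-B t d1) (-B t d2) (-B d1 d2) (fun g x1 x2 => g • t + x1 • d1 + x2 • d2 ∈ Ψ)
      (-φ d2) (φ d1) g x1 x2 g' v y2 :=
    { h := rt_of_tri L.tri
      hx := by
        show g • t + x1 • d1 + x2 • d2 ∈ Ψ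
        rw [← e]
        exact L.xm
      hy := by
        show g' • t + v • d1 + y2 • d2 ∈ Ψ
        rw [← e']
        exact L.xm'
      p1 := p1
      v1 := v1
      p2 := p2
      q2 := q2
      fx := by linarith only [c.fz]
      fy := by linarith only [c'.fz]
      hf := h1
      hκ := by linarith only [h2]
      st := st
      hB := by
        rw [e, e', L.val_B] at hBxx
        unfold bf
        linarith only [hBxx]
      obt := c'.obt }
  obtain ⟨κ, hκ⟩ : ∃ κ, κ = -φ d2 := ⟨_, rfl⟩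
  have hκ0 : 0 < κ := by linarith only [h2, hκ]
  have hX2 : 0 < x2 + y2 := by linarith only [p2, q2]
  have hfx := T.fx
  have hfy := T.fy
  rw [← hκ] at hfx hfy
  -- the sum
  have hS : ρ x + ρ x' = κ * (x2 + y2) + (x1 + v) * (ρ d1 - φ d1) + (x2 + y2) * ρ d2 := by
    rw [rx, rx', hfx, hfy]
    ring
  have hsum := L.sum
  have hS2 : 0 ≤ (x1 + v) * (ρ d1 - φ d1) := mul_nonneg (by linarith only [p1, v1]) (by linarith only [hG])
  have hS3 : (x2 + y2) * (κ + ρ d2) ≤ 1 := by linarith only [hS, hsum, hS2]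
  have hgg : 1 ≤ g + g' := by
    rcases c.zg with h3 | h3
    · rcases c'.zg with h4 | h4
      · exfalso
        have h5 : κ * (x2 * v - y2 * x1) = 0 := by
          have h6 : κ * x2 = φ d1 * x1 := by linarith only [hfx, h3]
          have h7 : κ * y2 = φ d1 * v := by linarith only [hfy, h4]
          linear_combination v * h6 - x1 * h7
        rcases mul_eq_zero.1 h5 with h6 | h6
        · linarith only [hκ0, h6]
        · linarith only [st, h6]
      · linarith only [h3, h4]
    · linarith only [h3, z1_nonneg c'.zg]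
  have hκX : κ * (x2 + y2) = g + g' + φ d1 * (x1 + v) := by
    rw [hfx, hfy]
    ring
  have hfX : 0 ≤ φ d1 * (x1 + v) := mul_nonneg h1 (by linarith only [p1, v1])
  have d2p : d2 ∈ C01 t d1 d2 := ⟨0, 0, 1, by simp, Or.inl rfl, Or.inl rfl, Or.inr le_rfl⟩
  have d2t : d2 ≠ t := by
    rintro h
    have := L.tri.indep 1 0 (-1) (by rw [h]; module)
    linarith only [this.1]
  have hstr := L.str d2 L.tri.hc d2p d2t
  have hC := L.tri.cp'
  have hfm : ∀ k, φ (pu (-B t d2) t d2 k) = -fm (-B t d2) (-φ d2) (k + 1) := by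
    intro k
    rw [pu_val, L.ft]
    show _ = -(-φ d2 * sq (-B t d2) (k + 1) - sq (-B t d2) k)
    ring
  have hne : ∀ k, φ (pu (-B t d2) t d2 k) ≤ 0 → 0 < fm (-B t d2) (-φ d2) (k + 1) := by
    intro k hk
    rcases hk.lt_or_eq with h3 | h3
    · rw [hfm] at h3
      linarith only [h3]
    · exact (no_zero32 L e e' p1 v1 (hC.mem k) h3).elim
  rcases hC.select h2 with ⟨n, hn1, hn2, hn3⟩ | ⟨hb, hn⟩ | ⟨hb, hn⟩
  · -- `F` is between two lines
    have hnk := hstr.nk h2 (n + 1) (fun i hi => by linarith only [hn1 i hi]) (fun i hi => by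
      have h3 := hn2 i (by omega)
      rw [pu_val, L.ft] at h3
      linarith only [h3]) (by
      rw [pu_val, L.ft] at hn3
      linarith only [hn3])
    rcases n with _ | k
    · -- index two
      have h3 : 1 < sq (-B t d2) 2 * ρ d2 + 1 := hnk
      have h4 : 1 ≤ sq (-B t d2) 2 := hn1 1 le_rfl
      have h5 : 0 < ρ d2 := by
        have : 0 < sq (-B t d2) 2 * ρ d2 := by linarith only [h3]
        exact (mul_pos_iff_of_pos_left (by linarith only [h4])).1 this
      have h6 := mul_pos hX2 h5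
      linarith only [hS3, hgg, hκX, hfX, h6]
    · -- index at least three
      have hm : ∀ i ≤ k + 2, 0 < fm (-B t d2) (-φ d2) i := by
        intro i hi
        cases i with
        | zero => exact one_pos
        | succ i => exact hne i (hn2 i (by omega))
      have hs : ∀ i, 1 ≤ i → i ≤ k + 3 → 1 ≤ sq (-B t d2) i := by
        intro i hi1 hi2
        obtain ⟨m, rfl⟩ : ∃ m, i = m + 1 := ⟨i - 1, by omega⟩
        exact hn1 m (by omega)
      have hcore := T.core c.z2 hm hs
      have hd := hs (k + 1) (by omega) (by omega)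
      have hss := hs (k + 2) (by omega) (by omega)
      have ha := hs (k + 3) (by omega) (by omega)
      have hcas := sq_cassini (-B t d2) (k + 1)
      have h3 : 1 < sq (-B t d2) (k + 3) * ρ d2 + sq (-B t d2) (k + 2) := hnk
      obtain ⟨a, hA⟩ : ∃ a, a = sq (-B t d2) (k + 3) := ⟨_, rfl⟩
      obtain ⟨s, hSS⟩ : ∃ s, s = sq (-B t d2) (k + 2) := ⟨_, rfl⟩
      obtain ⟨d, hD⟩ : ∃ d, d = sq (-B t d2) (k + 1) := ⟨_, rfl⟩
      have hcas' : s ^ 2 - d * a = 1 := by
        rw [hA, hSS, hD]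
        exact hcas
      rw [← hA, ← hSS] at h3
      rw [← hD] at hd
      rw [← hSS] at hss
      rw [← hA] at ha
      rw [← hSS, ← hD, ← hκ] at hcore
      have hs1 : 1 < s := by nlinarith only [ha, hss, hd, hcas']
      have h4 : -d < (s + 1) * ρ d2 := by
        have h5 : d * (1 - s) < d * (a * ρ d2) := mul_lt_mul_of_pos_left (by linarith only [h3]) (by linarith only [hd])
        have h6 : (s - 1) * -d < (s - 1) * ((s + 1) * ρ d2) := by nlinarith only [ha, h3, hcas', hs1, h5]
        exact lt_of_mul_lt_mul_left h6 (by linarith only [hs1])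
      have h5 : (s + 1) * ((x2 + y2) * (κ + ρ d2)) ≤ (s + 1) * 1 :=
        mul_le_mul_of_nonneg_left hS3 (by linarith only [hs1])
      have h6 : (x2 + y2) * -d < (x2 + y2) * ((s + 1) * ρ d2) := mul_lt_mul_of_pos_left h4 hX2
      nlinarith only [hcore, h5, h6]
  · -- beyond a vertex of infinite order
    refine T.no_inf hb fun k => ?_
    cases k with
    | zero => exact one_pos
    | succ k => exact hne k (hn k)
  · -- beyond a vertex of finite order
    rw [L.ft, mul_one] at hn
    have hfoot := hstr.foot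
    rcases T.h.b2z with hb2 | hb2
    · -- right angle at `V`
      have hb0 : B t d2 = 0 := by linarith only [hb2]
      have hr0 : 0 ≤ ρ d2 := by linarith only [hfoot, hb2]
      have h3 : 0 ≤ (x2 + y2) * ρ d2 := mul_nonneg hX2.le hr0
      have h4 : φ d1 * (x1 + v) = 0 := by linarith only [hS3, hgg, hκX, hfX, h3]
      have h5 : (x1 + v) * (ρ d1 - φ d1) = 0 := by linarith only [hS, hsum, hS2, hgg, hκX, hfX, h3]
      have h6 : (x2 + y2) * ρ d2 = 0 := by linarith only [hS3, hgg, hκX, hfX, h3]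
      have h7 : g + g' = 1 := by linarith only [hS3, hgg, hκX, h3, h4]
      have f0 : φ d1 = 0 := by
        rcases mul_eq_zero.1 h4 with h8 | h8
        · exact h8
        · linarith only [p1, v1, h8]
      have r1 : ρ d1 = 0 := by
        rcases mul_eq_zero.1 h5 with h8 | h8
        · linarith only [p1, v1, h8]
        · linarith only [f0, h8]
      have r2 : ρ d2 = 0 := by
        rcases mul_eq_zero.1 h6 with h8 | h8
        · linarith only [hX2, h8]
        · exact h8
      rw [f0] at hfx hfy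
      have hg'0 : 0 < g' := by
        rw [hfy]
        have := mul_pos hκ0 (by linarith only [q2] : 0 < y2)
        linarith only [this]
      have hg'1 : 1 ≤ g' := z1_one c'.zg hg'0
      have hg0 : g = 0 := by linarith only [h7, hg'1, z1_nonneg c.zg]
      have hg1 : g' = 1 := by linarith only [h7, hg0]
      have hx20 : x2 = 0 := by
        have h8 : κ * x2 = 0 := by linarith only [hfx, hg0]
        rcases mul_eq_zero.1 h8 with h9 | h9
        · linarith only [hκ0, h9]
        · exact h9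
      have hx11 : x1 = 1 := by
        have h8 := c.nrm
        rw [hg0, hx20] at h8
        nlinarith only [p1, h8]
      have hxe : x = d1 := by
        rw [e, hg0, hx20, hx11]
        module
      have hnrm := c'.nrm
      have hobt := c'.obt
      have hbp := T.b_pos
      rw [hg1, hb0] at hnrm hobt hbp
      rw [← hκ] at hbp
      have hB := T.hB
      unfold bf at hB
      rw [hg0, hx20, hx11, hg1, hb0] at hB
      have hr2 : 0 ≤ 2 * -B d1 d2 * v - y2 := by
        rcases c'.r2 with ⟨h8, -, -⟩ | h8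
        · linarith only [hg1, h8]
        · have := z1_nonneg h8
          rw [hb0] at this
          linarith only [this]
      refine tie32 L (κ := κ) hxe (by rw [e', hg1]) (by linarith only [hκ]) hκ0 hb0 r1 r2 f0 q2 v1 (by linarith only [hfy, hg1])
        (by linarith only [hobt]) (by linarith only [hnrm]) hr2 (by linarith only [hB]) ?_
      have h8 : 0 ≤ κ * (2 * -B t d1 * v - 2) := mul_nonneg hκ0.le (by linarith only [hobt])
      nlinarith only [hbp, h8]
    · -- `2 b2 ≥ 1`
      have hlt : 2 * -B t d2 < κ := by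
        rcases hn.lt_or_eq with h3 | h3
        · linarith only [hκ, h3]
        · exfalso
          have hm : (2 * -B t d2) • t + (1 : ℝ) • d2 ∈ Ψ := by
            have h4 := T.h.r0 _ _ _ T.h.e2
            have e1 : 2 * -B t d1 * 0 + 2 * -B t d2 * 1 - 0 = 2 * -B t d2 := by ring
            rw [e1] at h4
            have e2 : (2 * -B t d2) • t + (1 : ℝ) • d2 =
                (2 * -B t d2) • t + (0 : ℝ) • d1 + (1 : ℝ) • d2 := by module
            rw [e2]
            exact h4
          refine no_zero32 L e e' p1 v1 hm ?_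
          rw [map_add, map_smul, map_smul, L.ft, h3]
          simp only [smul_eq_mul]
          ring
      have hx2c := c.z2
      rcases hx2c with hx2 | hx2
      · -- `x = d1`
        have hg0 : g = 0 ∧ φ d1 = 0 := by
          have h3 : g + φ d1 * x1 = 0 := by
            rw [hfx, hx2]
            ring
          have h4 := mul_nonneg h1 (by linarith only [p1] : 0 ≤ x1)
          have h5 := z1_nonneg c.zg
          have h6 : φ d1 * x1 = 0 := by linarith only [h3, h4, h5]
          rcases mul_eq_zero.1 h6 with h7 | h7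
          · exact ⟨by linarith only [h3, h4, h5], h7⟩
          · linarith only [p1, h7]
        have h3 : 2 * -B t d2 * y2 < g' := by
          rw [hfy, hg0.2]
          have := mul_lt_mul_of_pos_right hlt (by linarith only [q2] : 0 < y2)
          linarith only [this]
        have h4 := beyond32 T (by linarith only [hb2]) h3
        have h5 : -(-B t d2) * y2 ≤ ρ d2 * y2 := mul_le_mul_of_nonneg_right hfoot (by linarith only [q2])
        have h6 : 0 ≤ ρ d1 := by linarith only [hG, hg0.2]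
        have h7 : 0 ≤ (x1 + v) * ρ d1 := mul_nonneg (by linarith only [p1, v1]) h6
        have h8 : ρ x + ρ x' = g + g' + (x1 + v) * ρ d1 + (x2 + y2) * ρ d2 := by
          rw [rx, rx']
          ring
        rw [hg0.1, hx2] at h8
        linarith only [hsum, h4, h5, h7, h8]
      · have h3 : 2 * -B t d2 * (x2 + y2) < κ * (x2 + y2) := mul_lt_mul_of_pos_right hlt hX2
        have h4 : -(-B t d2) * (x2 + y2) ≤ ρ d2 * (x2 + y2) :=
          mul_le_mul_of_nonneg_right hfoot hX2.le
        have h5 : 2 * (-B t d2) ≤ -B t d2 * (x2 + y2) := by nlinarith only [q2, hb2, hx2]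
        linarith only [hS3, hb2, h3, h4, h5]

/-- **the block (E0)** -/
theorem e0Stat (Ψ : Set E) (B : E →ₗ[ℝ] E →ₗ[ℝ] ℝ) : E0Stat Ψ B := by
  intro ρ φ t d1 d2 x x' L h1 h2 hG
  obtain ⟨g, x1, x2, g', x1', x2', e, e', c, c', rx, rx'⟩ := L.crd
  have hdet := L.det_ne e e'
  rcases lt_or_gt_of_ne (fun h => hdet (by linarith only [h] : x1 * x2' - x2 * x1' = 0) :
    x2 * x1' ≠ x2' * x1) with h | h
  · exact e0_aux32 L h1 h2 hG e e' c c' rx rx' h
  · exact e0_aux32 L.swapx h1 h2 hG e' e c' c rx' rx h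

end DY
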