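import Mathlib

/-!
# The fan of a vertex: a pure inequality (MP_d13a5e_al, block E0)

`s` is the Chebyshev sequence of the vertex `V` (`μ = 2 b`), `e k` the coefficients of a root in the chambers around
`V`, `v` its value at `V`, `w k` the (periodic) sequence `2 b'`, `2 b''` of the two other labels.
`fan_two`, `fan_main`: the coefficient `e 0` is at least `s_n (s_n + 1) / s_(n-1) - 1`.
-/

set_option autoImplicit false

namespace Pool.Agent.Helper32.DY

/-- the fan -/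
structure Fan (μ : ℝ) (w s e : ℕ → ℝ) (v : ℝ) (n : ℕ) : Prop where
  s0 : s 0 = 0
  s1 : s 1 = 1
  sr : ∀ k, s (k + 2) = μ * s (k + 1) - s k
  wp : ∀ k, w (k + 2) = w k
  wz : ∀ k, w k = 0 ∨ 1 ≤ w k
  er : ∀ k, e (k + 2) = μ * e (k + 1) + w (k + 1) * v - e k
  N : ∀ k, e k ^ 2 + e (k + 1) ^ 2 + v ^ 2 - μ * e k * e (k + 1) - w (k + 1) * v * e k -
    w k * v * e (k + 1) = 1
  z : ∀ k, 0 ≤ e k
  v1 : 1 ≤ v
  E : ∀ k, 1 ≤ k → k ≤ n → 1 ≤ e k
  D : ∀ k, k < n → e (k + 2) ≤ e k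
  V : ∀ k, k < n → v + 1 ≤ w (k + 1) * e k + w k * e (k + 1)
  hs : ∀ k, 1 ≤ k → k ≤ n + 1 → 1 ≤ s k
  sz : ∀ k, 0 < s k → 1 ≤ s k

/-- partial sums -/
def psum (w s : ℕ → ℝ) : ℕ → ℝ
  | 0 => 0
  | k + 1 => psum w s k + w (k + 1) * s (k + 1)

section real

variable {μ d s a e v z h p W : ℝ}

/-- a bound for the smaller solution -/
theorem small_le (hp : 0 ≤ p) (he : 1 ≤ e) (hv : 1 ≤ v) (h0 : 0 ≤ h) (hz : h ≤ z)
    (hzh : z * h = e ^ 2 + v ^ 2 - p * v * e - 1) : h ≤ e + v - 1 := by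
  have h1 : h ^ 2 ≤ (e + v - 1) ^ 2 := by
    have h2 : h ^ 2 ≤ z * h := by nlinarith
    have h3 : 0 ≤ p * v * e := by positivity
    have h4 : 0 ≤ (e - 1) * (v - 1) := mul_nonneg (by linarith) (by linarith)
    nlinarith
  have h5 : |h| ≤ |e + v - 1| := sq_le_sq.1 h1
  rw [abs_of_nonneg h0, abs_of_nonneg (by linarith)] at h5
  exact h5

/-- right angle, first bound -/
theorem rt_one (hμ : 0 < μ) (he : 1 ≤ e) (hv : 1 ≤ v) (hpe : v + 1 ≤ p * e) (h0 : 0 ≤ h)
    (hz : h ≤ z) (hs : z + h = μ * e) (hzh : z * h = e ^ 2 + v ^ 2 - p * v * e - 1) :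
    μ * h ≤ 2 * (e - p) := by
  have h1 : 0 ≤ (v - 1) * (p * e - v - 1) := mul_nonneg (by linarith) (by linarith)
  have h2 : z * h ≤ e * (e - p) := by nlinarith
  have h3 : μ * e / 2 * h ≤ z * h := mul_le_mul_of_nonneg_right (by linarith) h0
  have h4 : e * (μ * h) ≤ e * (2 * (e - p)) := by nlinarith
  exact le_of_mul_le_mul_left h4 (by linarith)

/-- right angle, the larger solution -/
theorem rt_z (hμ : 0 < μ) (hμ2 : 2 ≤ μ ^ 2) (he : 1 ≤ e) (hv : 1 ≤ v) (hpe : v + 1 ≤ p * e)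
    (h0 : 0 ≤ h) (hz : h ≤ z) (hs : z + h = μ * e)
    (hzh : z * h = e ^ 2 + v ^ 2 - p * v * e - 1) : μ * p ≤ z := by
  by_contra hcon
  have hcon := not_le.1 hcon
  have hz0 : 0 < z := by
    have : 0 < μ * e := by positivity
    linarith
  have hp0 : 0 < p := by
    by_contra hp
    have := mul_nonpos_of_nonpos_of_nonneg (not_lt.1 hp) (by linarith : 0 ≤ e)
    linarith
  have h1 : 0 ≤ (v - 1) * (p * e - v - 1) := mul_nonneg (by linarith) (by linarith)
  -- `E(e) = e² - (μ z + p) e + z² ≥ 0`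
  have h2 : 0 ≤ e ^ 2 - (μ * z + p) * e + z ^ 2 := by
    have h3 : h = μ * e - z := by linarith
    rw [h3] at hzh
    nlinarith
  -- `z ≤ μ e ≤ 2 z`
  have h4 : 0 ≤ (μ * e - z) * (2 * z - μ * e) := mul_nonneg (by linarith) (by linarith)
  have h5 : μ ^ 2 * e ^ 2 ≤ 3 * z * (μ * e) - 2 * z ^ 2 := by nlinarith
  -- with `t = μ e`: `μ² E ≤ (3 z - μ² z - μ p) t + (μ² - 2) z²`
  have h6 : 0 ≤ (3 * z - μ ^ 2 * z - μ * p) * (μ * e) + (μ ^ 2 - 2) * z ^ 2 := by
    have h7 : 0 ≤ μ ^ 2 * (e ^ 2 - (μ * z + p) * e + z ^ 2) := mul_nonneg (sq_nonneg _) h2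
    nlinarith
  -- linear in `t`, negative at `t = z` and nonpositive at `t = 2 z`
  obtain ⟨t, ht⟩ : ∃ t, t = μ * e := ⟨_, rfl⟩
  rw [← ht] at h6
  have ht1 : z ≤ t := by linarith
  have ht2 : t ≤ 2 * z := by linarith
  have e1 : (3 * z - μ ^ 2 * z - μ * p) * z + (μ ^ 2 - 2) * z ^ 2 < 0 := by
    have : (3 * z - μ ^ 2 * z - μ * p) * z + (μ ^ 2 - 2) * z ^ 2 = z * (z - μ * p) := by ring
    rw [this]
    exact mul_neg_of_pos_of_neg hz0 (by linarith)
  have e2 : (3 * z - μ ^ 2 * z - μ * p) * (2 * z) + (μ ^ 2 - 2) * z ^ 2 < 0 := by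
    have h8 : (3 * z - μ ^ 2 * z - μ * p) * (2 * z) + (μ ^ 2 - 2) * z ^ 2 =
        z * ((4 - μ ^ 2) * z - 2 * (μ * p)) := by ring
    rw [h8]
    apply mul_neg_of_pos_of_neg hz0
    nlinarith
  have e3 : z * ((3 * z - μ ^ 2 * z - μ * p) * t + (μ ^ 2 - 2) * z ^ 2) =
      (2 * z - t) * ((3 * z - μ ^ 2 * z - μ * p) * z + (μ ^ 2 - 2) * z ^ 2) +
      (t - z) * ((3 * z - μ ^ 2 * z - μ * p) * (2 * z) + (μ ^ 2 - 2) * z ^ 2) := by ring
  have e4 := mul_nonneg hz0.le h6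
  rw [e3] at e4
  have e5 := mul_nonpos_of_nonneg_of_nonpos (by linarith : 0 ≤ 2 * z - t) e1.le
  have e6 := mul_nonpos_of_nonneg_of_nonpos (by linarith : 0 ≤ t - z) e2.le
  have e7 : (2 * z - t) * ((3 * z - μ ^ 2 * z - μ * p) * z + (μ ^ 2 - 2) * z ^ 2) = 0 := by linarith
  have e8 : (t - z) * ((3 * z - μ ^ 2 * z - μ * p) * (2 * z) + (μ ^ 2 - 2) * z ^ 2) = 0 := by
    linarith
  rcases mul_eq_zero.1 e7 with h9 | h9
  · rcases mul_eq_zero.1 e8 with h10 | h10
    · linarith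
    · linarith
  · linarith

/-- right angle, second bound -/
theorem rt_two (hμ : 0 < μ) (hμ2 : 2 ≤ μ ^ 2) (hs0 : 0 ≤ s) (hd : 0 ≤ d) (hda : d ≤ a)
    (hsum : a + d = μ * s) (he : 1 ≤ e) (hv : 1 ≤ v) (hpe : v + 1 ≤ p * e) (h0 : 0 ≤ h)
    (hz : h ≤ z) (hs : z + h = μ * e) (hzh : z * h = e ^ 2 + v ^ 2 - p * v * e - 1) :
    p * (a - d) ≤ a * e - s * h := by
  have h1 := rt_one hμ he hv hpe h0 hz hs hzh
  have hep : p ≤ e := by
    have : 0 ≤ μ * h := by positivity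
    linarith
  rcases le_total e (2 * p) with h2 | h2
  · have h3 : μ * (s * h) ≤ 2 * s * (e - p) := by nlinarith
    have h4 : μ * (p * (a - d)) ≤ μ * (a * e - s * h) := by
      have h5 : 0 ≤ (e - p) * (μ * a - 2 * s) + μ * p * d := by
        rcases le_total (2 * s) (μ * a) with h6 | h6
        · have h7 : 0 ≤ p := by
            by_contra hp
            have := mul_nonpos_of_nonpos_of_nonneg (not_le.1 hp).le (by linarith : 0 ≤ e)
            linarith
          have := mul_nonneg (by linarith : 0 ≤ e - p) (by linarith : 0 ≤ μ * a - 2 * s)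
          positivity
        · have h7 : 0 ≤ p := by
            by_contra hp
            have := mul_nonpos_of_nonpos_of_nonneg (not_le.1 hp).le (by linarith : 0 ≤ e)
            linarith
          have h8 : p * (μ * a - 2 * s) ≤ (e - p) * (μ * a - 2 * s) :=
            mul_le_mul_of_nonpos_right (by linarith) (by linarith)
          have h9 : p * (μ * a - 2 * s) + μ * p * d = p * (s * (μ ^ 2 - 2)) := by
            have : μ * (a + d) = μ * (μ * s) := by rw [hsum]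
            linear_combination p * this
          have h10 : 0 ≤ p * (s * (μ ^ 2 - 2)) :=
            mul_nonneg h7 (mul_nonneg hs0 (by linarith))
          linarith
      nlinarith
    exact le_of_mul_le_mul_left h4 hμ
  · have h3 : h ≤ μ * e / 2 := by linarith
    have h4 : s * h ≤ s * (μ * e / 2) := mul_le_mul_of_nonneg_left h3 hs0
    have h5 : p * (a - d) ≤ e / 2 * (a - d) := mul_le_mul_of_nonneg_right (by linarith) (by linarith)
    nlinarith

end real

namespace Fan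

variable {μ v : ℝ} {w s e : ℕ → ℝ} {n : ℕ}

theorem mono (F : Fan μ w s e v n) {m : ℕ} (h : m ≤ n) : Fan μ w s e v m :=
  ⟨F.s0, F.s1, F.sr, F.wp, F.wz, F.er, F.N, F.z, F.v1, fun k h1 h2 => F.E k h1 (h2.trans h),
    fun k h1 => F.D k (lt_of_lt_of_le h1 h), fun k h1 => F.V k (lt_of_lt_of_le h1 h),
    fun k h1 h2 => F.hs k h1 (by omega), F.sz⟩

theorem e0_eq (F : Fan μ w s e v n) (k : ℕ) :
    e 0 = s (k + 1) * e k - s k * e (k + 1) + psum w s k * v := by
  induction k with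
  | zero =>
    rw [F.s0, F.s1]
    simp [psum]
  | succ k ih =>
    rw [ih, F.er k, F.sr k]
    show _ = _ + (psum w s k + w (k + 1) * s (k + 1)) * v
    ring

theorem cas (F : Fan μ w s e v n) (k : ℕ) : s (k + 2) * s k = s (k + 1) ^ 2 - 1 := by
  induction k with
  | zero =>
    rw [F.s0, F.s1]
    ring
  | succ k ih =>
    rw [F.sr (k + 1), F.sr k]
    rw [F.sr k] at ih
    linear_combination ih

theorem s2 (F : Fan μ w s e v n) : s 2 = μ := by
  rw [F.sr 0, F.s0, F.s1]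
  ring

theorem s3 (F : Fan μ w s e v n) : s 3 = μ ^ 2 - 1 := by
  rw [F.sr 1, F.s2, F.s1]
  ring

theorem s4 (F : Fan μ w s e v n) : s 4 = μ ^ 3 - 2 * μ := by
  rw [F.sr 2, F.s3, F.s2]
  ring

theorem sum (F : Fan μ w s e v n) (k : ℕ) : e k + e (k + 2) = μ * e (k + 1) + w (k + 1) * v := by
  rw [F.er k]
  ring

theorem prod (F : Fan μ w s e v n) (k : ℕ) :
    e k * e (k + 2) = e (k + 1) ^ 2 + v ^ 2 - w k * v * e (k + 1) - 1 := by
  have h1 := F.N k
  rw [F.er k]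
  linear_combination -h1

theorem sn (F : Fan μ w s e v n) {k : ℕ} (hk : k ≤ n + 1) : 0 ≤ s k := by
  rcases Nat.eq_zero_or_pos k with h | h
  · rw [h, F.s0]
  · linarith [F.hs k h hk]

theorem wn (F : Fan μ w s e v n) (k : ℕ) : 0 ≤ w k := by
  rcases F.wz k with h | h <;> linarith

theorem psum_nonneg (F : Fan μ w s e v n) {k : ℕ} (hk : k ≤ n + 1) : 0 ≤ psum w s k := by
  induction k with
  | zero => exact le_rfl
  | succ k ih =>
    show 0 ≤ psum w s k + w (k + 1) * s (k + 1)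
    have h1 := ih (by omega)
    have h2 := mul_nonneg (F.wn (k + 1)) (F.sn hk)
    linarith

end Fan

end Pool.Agent.Helper32.DY
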