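import Pool.Agent.Helper32.DY.Fan

/-!
# The fan of a vertex: index three (MP_d13a5e_al, block E0)
-/

set_option autoImplicit false

namespace Pool.Agent.Helper32.DY

namespace Fan

variable {μ v : ℝ} {w s e : ℕ → ℝ} {n : ℕ}

theorem mu1 (F : Fan μ w s e v n) (hn : 1 ≤ n) : 1 ≤ μ := by
  rw [← F.s2]
  exact F.hs 2 (by norm_num) (by omega)

theorem musq (F : Fan μ w s e v n) (hn : 2 ≤ n) : 2 ≤ μ ^ 2 := by
  have h1 := F.hs 3 (by norm_num) (by omega)
  rw [F.s3] at h1
  linarith only [h1]

/-- index three -/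
theorem two (F : Fan μ w s e v 2) (hw : w 1 = 1 ∨ w 1 = 0 ∨ 2 ≤ w 1 ^ 2) (hL : e 2 ≤ w 1 * v) :
    μ * (μ + 1) ≤ e 0 + 1 := by
  have hμ := F.mu1 (by norm_num)
  have hμ2 := F.musq le_rfl
  have hv := F.v1
  have e2 := F.E 2 (by norm_num) le_rfl
  have e1 := F.E 1 (by norm_num) (by norm_num)
  have h3 := F.z 3
  have d1 := F.D 1 (by norm_num)
  have hsum := F.sum 1
  have hprod := F.prod 1
  have hw1 : w 3 = w 1 := F.wp 1
  -- the value of `e 0`
  have h0 : e 0 = μ * e 1 - e 2 + w 1 * v := by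
    have := F.er 0
    linarith only [this]
  have hlow : μ * e 1 ≤ e 0 := by linarith only [hL, h0]
  rcases F.wz 1 with hz | hz
  · rw [hz] at hL
    linarith only [hL, e2]
  rcases F.wz 2 with hz2 | hz2
  · -- right angle
    have hV := F.V 1 (by norm_num)
    rw [hz2] at hV
    have hV' : v + 1 ≤ w 1 * e 2 := by linarith only [hV]
    have hsum' : e 1 + e 3 = μ * e 2 := by
      rw [hsum, hz2]
      ring
    have hz := rt_z (by linarith only [hμ]) hμ2 e2 hv hV' h3 d1 hsum' hprod
    rcases hw with hw | hw | hw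
    · rw [hw] at hL hV'
      linarith only [hL, hV']
    · rw [hw] at hL
      linarith
    · have hp : 7 / 5 ≤ w 1 := by
        have hw0 : 0 ≤ w 1 := F.wn 1
        nlinarith only [hw, hw0]
      have h5 : μ * (μ * w 1) ≤ e 0 := by
        have := mul_le_mul_of_nonneg_left hz (by linarith only [hμ] : 0 ≤ μ)
        linarith only [hlow, this]
      have h6 : μ * (μ * (7 / 5)) ≤ μ * (μ * w 1) := by
        apply mul_le_mul_of_nonneg_left _ (by linarith only [hμ])
        exact mul_le_mul_of_nonneg_left hp (by linarith only [hμ])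
      nlinarith only [h5, h6, sq_nonneg (μ - 5 / 4)]
  · -- both labels at least `1/2`
    have h4 : e 0 = (μ ^ 2 - 1) * e 2 - μ * e 3 + (w 1 + w 2 * μ) * v := by
      have h5 : e 1 = μ * e 2 + w 2 * v - e 3 := by linarith only [hsum]
      rw [h0, h5]
      ring
    have h6 : e 1 * e 3 ≤ v ^ 2 - 1 := by
      rw [hprod]
      nlinarith only [hL, e2]
    have h7 : (μ ^ 2 - 1) + (1 + μ) * v - μ * e 3 ≤ e 0 := by
      rw [h4]
      have h8 : μ ^ 2 - 1 ≤ (μ ^ 2 - 1) * e 2 := by nlinarith only [hμ2, e2]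
      have h9 : (1 + μ) * v ≤ (w 1 + w 2 * μ) * v := by
        apply mul_le_mul_of_nonneg_right _ (by linarith only [hv])
        nlinarith only [hμ, hz, hz2]
      linarith only [h8, h9]
    suffices hgoal : μ * e 3 + μ ≤ (1 + μ) * v by nlinarith only [h7, hgoal]
    rcases le_total μ v with hc | hc
    · have h8 : e 3 ^ 2 ≤ v ^ 2 := by nlinarith only [h3, d1, h6]
      have h9 : e 3 ≤ v := by
        have := sq_le_sq.1 h8
        rwa [abs_of_nonneg h3, abs_of_nonneg (by linarith only [hv])] at this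
      nlinarith only [hμ, hc, h9]
    · have h8 : μ + v ≤ 2 * e 1 := by
        have h9 : μ ≤ μ * e 2 := by nlinarith only [hμ, e2]
        have h10 : v ≤ w 2 * v := by nlinarith only [hv, hz2]
        linarith only [d1, hsum, h9, h10]
      have h9 : (μ + v) * e 3 ≤ 2 * (v ^ 2 - 1) := by nlinarith only [h3, h6, h8]
      have h10 : (μ + v) * (μ * e 3 + μ) ≤ (μ + v) * ((1 + μ) * v) := by
        have h11 : μ * ((μ + v) * e 3) ≤ μ * (2 * (v ^ 2 - 1)) :=
          mul_le_mul_of_nonneg_left h9 (by linarith only [hμ])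
        have h12 : 0 ≤ (μ - v) * (v - 1) := mul_nonneg (by linarith only [hc]) (by linarith only [hv])
        -- `μ² (v - 1) - v² (μ - 1) + 2 μ ≥ 0`
        have h13 : 0 ≤ μ ^ 2 * (v - 1) - v ^ 2 * (μ - 1) + 2 * μ := by
          have h14 : v ^ 2 ≤ (1 + μ) * v - μ := by nlinarith only [h12]
          have h15 : v ^ 2 * (μ - 1) ≤ ((1 + μ) * v - μ) * (μ - 1) :=
            mul_le_mul_of_nonneg_right h14 (by linarith only [hμ])
          nlinarith only [hμ, hv, h15]
        nlinarith only [h11, h13]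
      exact le_of_mul_le_mul_left h10 (by linarith only [hμ, hv])

end Fan

end Pool.Agent.Helper32.DY
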