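import Pool.Agent.Helper32.DY.Fan2

/-!
# The fan of a vertex: index four (MP_d13a5e_al, block E0)
-/

set_option autoImplicit false

namespace Pool.Agent.Helper32.DY

section real

variable {μ d s a e v z h q W y : ℝ}

/-- the case `s ≤ a` without a right angle at the chamber wall -/
theorem caseAC (hs1 : 1 ≤ s) (has : s ≤ a) (he : 1 ≤ e) (hv : 1 ≤ v) (hq : 1 ≤ q) (hW : 0 ≤ W)
    (hh : h ≤ e + v - 1) (hy : y = a * e - s * h + (W + q * s) * v) : a + W ≤ y := by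
  have h1 : s * h ≤ s * (e + v - 1) := mul_le_mul_of_nonneg_left hh (by linarith)
  have h2 : 0 ≤ (a - s) * (e - 1) := mul_nonneg (by linarith) (by linarith)
  have h3 : 0 ≤ W * (v - 1) := mul_nonneg hW (by linarith)
  have h4 : s * v ≤ q * s * v := by
    have : 0 ≤ (q - 1) * (s * v) := mul_nonneg (by linarith) (mul_nonneg (by linarith) (by linarith))
    linarith
  rw [hy]
  nlinarith

/-- index four, `μ ≥ 2`, right angle at `t` and `d1` -/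
theorem caseS4 (hμ : 2 ≤ μ) (he : 1 ≤ e) (hv : 1 ≤ v) (hq : 1 ≤ q) (h0 : 0 ≤ h) (hz : h ≤ z)
    (hs : z + h = μ * e + q * v) (hzh : z * h = e ^ 2 + v ^ 2 - 1) :
    μ ^ 3 - μ - 1 ≤ (μ ^ 3 - 2 * μ) * e - (μ ^ 2 - 1) * h + (q + q * (μ ^ 2 - 1)) * v := by
  have hh : h ≤ e + v - 1 := small_le (p := 0) le_rfl he hv h0 hz (by rw [hzh]; ring)
  have h1 : v ≤ q * v := by nlinarith
  have h2 : (q + q * (μ ^ 2 - 1)) * v = μ ^ 2 * (q * v) := by ring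
  rw [h2]
  have h3 : μ ^ 2 * v ≤ μ ^ 2 * (q * v) := mul_le_mul_of_nonneg_left h1 (sq_nonneg _)
  have has : μ ^ 2 - 1 ≤ μ ^ 3 - 2 * μ := by nlinarith [mul_nonneg (by linarith : 0 ≤ μ - 2) (sq_nonneg μ)]
  have hs1 : 0 ≤ μ ^ 2 - 1 := by nlinarith
  have h4 : 0 ≤ (μ ^ 3 - 2 * μ - (μ ^ 2 - 1)) * (e - 1) := mul_nonneg (by linarith) (by linarith)
  rcases le_total (μ - 1) v with hc | hc
  · have h5 : (μ ^ 2 - 1) * h ≤ (μ ^ 2 - 1) * (e + v - 1) := mul_le_mul_of_nonneg_left hh hs1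
    nlinarith
  · have h5 : (μ - 1) * e + 1 ≤ z := by nlinarith
    have h6 : ((μ - 1) * e + 1) * h ≤ e ^ 2 + v ^ 2 - 1 := by
      rw [← hzh]
      exact mul_le_mul_of_nonneg_right h5 h0
    have h7 : μ * h ≤ μ * (e - 1) + v * (μ - 1) := by
      by_contra hcon
      have hcon := not_le.1 hcon
      have h8 : 0 < (μ - 1) * e + 1 := by nlinarith
      have h9 : ((μ - 1) * e + 1) * (μ * (e - 1) + v * (μ - 1)) < ((μ - 1) * e + 1) * (μ * h) :=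
        mul_lt_mul_of_pos_left hcon h8
      have h10 : (e + 1) * (μ * (e - 1)) ≤ ((μ - 1) * e + 1) * (μ * (e - 1)) := by
        apply mul_le_mul_of_nonneg_right _ (mul_nonneg (by linarith) (by linarith))
        nlinarith
      have h11 : μ * (v * (μ - 1)) ≤ ((μ - 1) * e + 1) * (v * (μ - 1)) := by
        apply mul_le_mul_of_nonneg_right _ (mul_nonneg (by linarith) (by linarith))
        nlinarith
      have h12 : v * v ≤ v * (μ - 1) := mul_le_mul_of_nonneg_left hc (by linarith)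
      have h13 : μ * (v * v) ≤ μ * (v * (μ - 1)) := mul_le_mul_of_nonneg_left h12 (by linarith)
      have h14 : μ * (((μ - 1) * e + 1) * h) ≤ μ * (e ^ 2 + v ^ 2 - 1) :=
        mul_le_mul_of_nonneg_left h6 (by linarith)
      nlinarith
    -- `μ y ≥ ...`
    have h8 : (μ ^ 2 - 1) * (μ * h) ≤ (μ ^ 2 - 1) * (μ * (e - 1) + v * (μ - 1)) :=
      mul_le_mul_of_nonneg_left h7 hs1
    have h9 : μ * (μ ^ 3 - 2 * μ + μ) ≤
        μ * ((μ ^ 3 - 2 * μ) * e - (μ ^ 2 - 1) * h + μ ^ 2 * (q * v)) := by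
      have h10 : μ * (μ ^ 2 * v) ≤ μ * (μ ^ 2 * (q * v)) := mul_le_mul_of_nonneg_left h3 (by linarith)
      have h11 : 0 ≤ μ * ((μ ^ 3 - 2 * μ - (μ ^ 2 - 1)) * (e - 1)) := mul_nonneg (by linarith) h4
      -- `v (μ³ - (μ² - 1)(μ - 1)) ≥ μ²`
      have h12 : μ ^ 2 ≤ v * (μ ^ 2 + μ - 1) := by nlinarith
      nlinarith
    have h10 := le_of_mul_le_mul_left h9 (by linarith)
    linarith

/-- index four, `μ² ≤ 3`, no right angle -/
theorem caseA3 (hμ1 : 1 ≤ μ) (hμ : μ ^ 2 ≤ 3) (hμ2 : 2 ≤ μ ^ 2) {w1 w2 e1 e2 e3 : ℝ} (hv : 1 ≤ v)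
    (h1 : 1 ≤ w1) (h2 : 1 ≤ w2) (he3 : 1 ≤ e3) (hd1 : e3 ≤ e1) (hs1 : e1 + e3 = μ * e2 + w2 * v)
    (hd2 : μ * e3 + w1 * v ≤ 2 * e2) (hy : y = (μ ^ 2 - 1) * e2 - μ * e3 + (w1 + w2 * μ) * v) :
    μ ^ 3 - μ - 1 ≤ y := by
  have k1 : μ + 1 ≤ 2 * e2 := by nlinarith
  have k2 : 2 * e3 ≤ μ * e2 + w2 * v := by linarith
  have k3 : μ * (2 * e3) ≤ μ * (μ * e2 + w2 * v) := mul_le_mul_of_nonneg_left k2 (by linarith)
  have k4 : (μ ^ 2 - 2) * e2 + 2 * w1 * v + w2 * μ * v ≤ 2 * y := by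
    rw [hy]
    nlinarith
  have k5 : (μ ^ 2 - 2) * (μ + 1) ≤ (μ ^ 2 - 2) * (2 * e2) :=
    mul_le_mul_of_nonneg_left k1 (by linarith)
  have k6 : 1 ≤ w1 * v := by nlinarith
  have k7 : μ ≤ w2 * μ * v := by
    have : 1 ≤ w2 * v := by nlinarith
    nlinarith
  have k8 : (μ ^ 2 - 2) * (μ + 1) + 4 + 2 * μ ≤ 4 * y := by linarith
  -- `4 (μ³ - μ - 1) ≤ (μ² - 2)(μ + 1) + 4 + 2 μ`
  have k9 : μ * μ ^ 2 ≤ μ * 3 := mul_le_mul_of_nonneg_left hμ (by linarith)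
  have k10 : 0 ≤ (2 - μ) * (3 - μ) := by
    have : μ ≤ 2 := by nlinarith
    exact mul_nonneg (by linarith) (by linarith)
  nlinarith

/-- index four, `μ² ≤ 3`, right angle at `t` and `d1` -/
theorem caseC3 (hμ1 : 1 ≤ μ) (hμ : μ ^ 2 ≤ 3) (hμ2 : 2 ≤ μ ^ 2) {e2 e3 : ℝ} (hv : 1 ≤ v)
    (hq : 1 ≤ q) (k1 : μ * e3 ≤ 2 * (e2 - q)) (k2 : 2 * e3 ≤ μ * e2)
    (hy : y = (μ ^ 2 - 1) * e2 - μ * e3 + q * v) : μ ^ 3 - μ - 1 ≤ y := by
  have k3 : (μ ^ 2 - 3) * e2 + 2 * q + q * v ≤ y := by rw [hy]; linarith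
  have k4 : (μ ^ 2 - 2) * e2 + 2 * (q * v) ≤ 2 * y := by
    have := mul_le_mul_of_nonneg_left k2 (by linarith : 0 ≤ μ)
    rw [hy]
    nlinarith
  have k5 := mul_le_mul_of_nonneg_left k3 (by linarith : 0 ≤ μ ^ 2 - 2)
  have k6 := mul_le_mul_of_nonneg_left k4 (by linarith : 0 ≤ 3 - μ ^ 2)
  have k7 : 1 ≤ q * v := by nlinarith
  have k8 : (4 - μ ^ 2) * (q * v) + (μ ^ 2 - 2) * (2 * q) ≤ (4 - μ ^ 2) * y := by nlinarith
  have k9 : μ ^ 2 ≤ (4 - μ ^ 2) * y := by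
    have h1 := mul_le_mul_of_nonneg_left k7 (by linarith : 0 ≤ 4 - μ ^ 2)
    have h2 := mul_le_mul_of_nonneg_left hq (by linarith : 0 ≤ μ ^ 2 - 2)
    linarith
  have k10 : (4 - μ ^ 2) * (μ ^ 3 - μ - 1) ≤ μ ^ 2 := by
    -- `μ ≤ (μ² + c²) / (2 c)`, `c = 5/3`
    obtain ⟨u, hu⟩ : ∃ u, u = μ ^ 2 := ⟨_, rfl⟩
    have h1 : μ ≤ (u + 25 / 9) * (3 / 10) := by nlinarith [sq_nonneg (μ - 5 / 3)]
    have h2 : μ ^ 3 - μ - 1 = μ * (u - 1) - 1 := by rw [hu]; ring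
    rw [h2, ← hu]
    rw [← hu] at hμ hμ2
    have h3 : μ * (u - 1) ≤ (u + 25 / 9) * (3 / 10) * (u - 1) :=
      mul_le_mul_of_nonneg_right h1 (by linarith)
    have h4 : (4 - u) * (μ * (u - 1) - 1) ≤ (4 - u) * ((u + 25 / 9) * (3 / 10) * (u - 1) - 1) :=
      mul_le_mul_of_nonneg_left (by linarith) (by linarith)
    have h5 : (4 - u) * ((u + 25 / 9) * (3 / 10) * (u - 1) - 1) ≤ u := by
      nlinarith [mul_nonneg (by linarith : 0 ≤ u - 2) (by linarith : 0 ≤ 3 - u),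
        mul_nonneg (mul_nonneg (by linarith : 0 ≤ u - 2) (by linarith : 0 ≤ 3 - u)) (by linarith : 0 ≤ u - 2),
        mul_nonneg (mul_nonneg (by linarith : 0 ≤ u - 2) (by linarith : 0 ≤ 3 - u)) (by linarith : 0 ≤ 3 - u)]
    linarith
  have k11 := k10.trans k9
  exact le_of_mul_le_mul_left k11 (by linarith)

end real

end Pool.Agent.Helper32.DY
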