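import Pool.Agent.Helper32.DY.Fan3

/-!
# The fan of a vertex: the main inequality (MP_d13a5e_al, block E0)
-/

set_option autoImplicit false

namespace Pool.Agent.Helper32.DY

namespace Fan

variable {μ v : ℝ} {w s e : ℕ → ℝ} {n : ℕ}

theorem not_both (F : Fan μ w s e v n) (hn : 1 ≤ n) (h1 : w 1 = 0) (h2 : w 2 = 0) : False := by
  have h3 := F.V 0 (by omega)
  have h4 : w 0 = w 2 := (F.wp 0).symm
  rw [h4, h1, h2] at h3
  linarith [F.v1]

/-- index four -/
theorem three (F : Fan μ w s e v 3) (hL : w 1 = 0 → e 3 ≤ w 2 * v) :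
    s 3 * (s 3 + 1) ≤ s 2 * (e 0 + 1) := by
  have hμ := F.mu1 (by norm_num)
  have hμ2 := F.musq (by norm_num)
  have hv := F.v1
  have e1 := F.E 1 (by norm_num) (by norm_num)
  have e2 := F.E 2 (by norm_num) (by norm_num)
  have e3 := F.E 3 (by norm_num) (by norm_num)
  have h4 := F.z 4
  have d1 := F.D 1 (by norm_num)
  have d2 := F.D 2 (by norm_num)
  have hw3 : w 3 = w 1 := F.wp 1
  have h0 := F.e0_eq 3
  have h02 := F.e0_eq 2
  have hP2 : psum w s 2 = w 1 + w 2 * μ := by
    show (0 + w 1 * s 1) + w 2 * s 2 = _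
    rw [F.s1, F.s2]
    ring
  have hP3 : psum w s 3 = (w 1 + w 2 * μ) + w 1 * s 3 := by
    show psum w s 2 + w 3 * s 3 = _
    rw [hP2, hw3]
  have ha : s 4 = μ ^ 3 - 2 * μ := F.s4
  have hs : s 3 = μ ^ 2 - 1 := F.s3
  have hd : s 2 = μ := F.s2
  have e02 : e 0 = (μ ^ 2 - 1) * e 2 - μ * e 3 + (w 1 + w 2 * μ) * v := by
    rw [h02, hP2, hs, hd]
  suffices hgoal : μ ^ 3 - μ - 1 ≤ e 0 by
    rw [hs, hd]
    have := mul_le_mul_of_nonneg_left hgoal (by linarith : 0 ≤ μ)
    linarith
  have hs3 : 1 ≤ s 3 := F.hs 3 (by norm_num) (by norm_num)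
  have hs4 : 1 ≤ s 4 := F.hs 4 (by norm_num) (by norm_num)
  have hsum2 := F.sum 2
  have hprod2 := F.prod 2
  have hsum1 := F.sum 1
  have hprod1 := F.prod 1
  rcases F.wz 1 with hz | hz
  · -- right angle at `d1` and `d2`
    have hL' := hL hz
    have hV := F.V 2 (by norm_num)
    rw [hw3, hz] at hV
    have hsum' : e 2 + e 4 = μ * e 3 := by rw [hsum2, hw3, hz]; ring
    have h5 := rt_z (by linarith) hμ2 e3 hv (by linarith) h4 d2 hsum' hprod2
    have hw2 : 1 ≤ w 2 := by
      rcases F.wz 2 with h6 | h6
      · exact (F.not_both (by norm_num) hz h6).elim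
      · exact h6
    have h6 : (μ ^ 2 - 1) * e 2 ≤ e 0 := by
      rw [e02, hz]
      have := mul_le_mul_of_nonneg_left hL' (by linarith : 0 ≤ μ)
      linarith
    have h7 : μ ≤ e 2 := by
      have : μ * 1 ≤ μ * w 2 := mul_le_mul_of_nonneg_left hw2 (by linarith)
      linarith
    have h8 : (μ ^ 2 - 1) * μ ≤ (μ ^ 2 - 1) * e 2 := mul_le_mul_of_nonneg_left h7 (by linarith)
    linarith
  · rcases le_or_gt (s 3) (s 4) with hc | hc
    · rcases F.wz 2 with hz2 | hz2
      · -- right angle at `t` and `d1`
        rcases le_total μ 2 with hm | hm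
        · have h5 : e 4 ≤ e 3 + v - 1 :=
            small_le (F.wn 2) e3 hv h4 d2 hprod2
          have h6 := caseAC (W := w 1 + w 2 * μ) (q := w 1) (y := e 0) hs3 hc e3 hv hz
            (by rw [hz2]; linarith) h5 (by rw [h0, hP3])
          rw [hz2, ha] at h6
          linarith
        · have h5 := caseS4 hm e3 hv hz h4 d2 (by rw [hsum2, hw3]) (by rw [hprod2, hz2]; ring)
          have h6 : e 0 = (μ ^ 3 - 2 * μ) * e 3 - (μ ^ 2 - 1) * e 4 +
              (w 1 + w 1 * (μ ^ 2 - 1)) * v := by
            rw [h0, hP3, hz2, hs, ha]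
            ring
          linarith
      · have h5 : e 4 ≤ e 3 + v - 1 := small_le (F.wn 2) e3 hv h4 d2 hprod2
        have h6 := caseAC (W := w 1 + w 2 * μ) (q := w 1) (y := e 0) hs3 hc e3 hv hz
          (by have := mul_nonneg (F.wn 2) (by linarith : 0 ≤ μ); linarith) h5 (by rw [h0, hP3])
        rw [ha] at h6
        have h7 : μ ≤ w 2 * μ := le_mul_of_one_le_left (by linarith) hz2
        linarith
    · -- `s 4 < s 3`
      have hm3 : μ ^ 2 ≤ 3 := by
        by_contra hcon
        have hcon := not_le.1 hcon
        have h6 : s 6 = μ * (μ ^ 2 - 1) * (μ ^ 2 - 3) := by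
          rw [F.sr 4, F.sr 3, ha, hs]
          ring
        have h7 : 0 < s 6 := by
          rw [h6]
          exact mul_pos (mul_pos (by linarith) (by linarith)) (by linarith)
        have h8 := F.sz 6 h7
        have h9 : s 6 - 1 = (s 4 - s 3) * (μ ^ 2 + μ - 1) := by
          rw [h6, ha, hs]
          ring
        have h10 : (s 4 - s 3) * (μ ^ 2 + μ - 1) < 0 :=
          mul_neg_of_neg_of_pos (by linarith) (by linarith)
        linarith
      rcases F.wz 2 with hz2 | hz2
      · have hV := F.V 1 (by norm_num)
        rw [hz2] at hV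
        have hsum' : e 1 + e 3 = μ * e 2 := by rw [hsum1, hz2]; ring
        have h5 := rt_one (by linarith) e2 hv (by linarith : v + 1 ≤ w 1 * e 2) (by linarith) d1
          hsum' hprod1
        have h6 : 2 * e 3 ≤ μ * e 2 := by linarith
        exact caseC3 hμ hm3 hμ2 hv hz h5 h6 (by rw [e02, hz2]; ring)
      · refine caseA3 hμ hm3 hμ2 hv hz hz2 e3 d1 hsum1 ?_ e02
        rw [hw3] at hsum2
        linarith

/-- **the main inequality** for index at least four -/
theorem main (m : ℕ) : ∀ (_ : Fan μ w s e v (m + 3)), (m = 0 → w 1 = 0 → e 3 ≤ w 2 * v) →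
    s (m + 3) * (s (m + 3) + 1) ≤ s (m + 2) * (e 0 + 1) := by
  induction m with
  | zero =>
    intro F hL
    exact F.three (hL rfl)
  | succ m ih =>
    intro F _
    have hμ := F.mu1 (by omega)
    have hμ2 := F.musq (by omega)
    have hv := F.v1
    -- the three Chebyshev values
    have hsr := F.sr (m + 3)
    have hsr2 := F.sr (m + 2)
    have hcas := F.cas (m + 3)
    have hcas2 := F.cas (m + 2)
    have hr : 1 ≤ s (m + 2) := F.hs _ (by omega) (by omega)
    have hd : 1 ≤ s (m + 3) := F.hs _ (by omega) (by omega)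
    have hs : 1 ≤ s (m + 4) := F.hs _ (by omega) (by omega)
    have ha : 1 ≤ s (m + 5) := F.hs _ (by omega) (by omega)
    have hr2 : 1 ≤ s (m + 1) := F.hs _ (by omega) (by omega)
    have e1 : m + 1 + 3 = m + 4 := by omega
    have e2 : m + 1 + 2 = m + 3 := by omega
    rw [e1, e2]
    have hz5 := F.z (m + 5)
    have hE := F.E (m + 4) (by omega) (by omega)
    have hD := F.D (m + 3) (by omega)
    have hsum := F.sum (m + 3)
    have hprod := F.prod (m + 3)
    have h0 := F.e0_eq (m + 4)
    have hP : psum w s (m + 4) = psum w s (m + 3) + w (m + 4) * s (m + 4) := rfl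
    have hP3 : psum w s (m + 3) = psum w s (m + 1) + w (m + 2) * s (m + 2) + w (m + 3) * s (m + 3) := rfl
    have hP1 := F.psum_nonneg (k := m + 1) (by omega)
    have hw4 : w (m + 4) = w (m + 2) := F.wp (m + 2)
    have hwm : (w (m + 2) = w 1 ∧ w (m + 3) = w 2) ∨ (w (m + 2) = w 2 ∧ w (m + 3) = w 1) := by
      clear ih hsr hsr2 hcas hcas2 hr hd hs ha hr2 e1 e2 hz5 hE hD hsum hprod h0 hP hP3 hP1 hw4
      have key : ∀ k, (w (k + 2) = w 1 ∧ w (k + 3) = w 2) ∨ (w (k + 2) = w 2 ∧ w (k + 3) = w 1) := by
        intro k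
        induction k with
        | zero => exact Or.inr ⟨rfl, F.wp 1⟩
        | succ k ih =>
          have h1 := F.wp (k + 2)
          rcases ih with ⟨h2, h3⟩ | ⟨h2, h3⟩
          · exact Or.inr ⟨h3, by rw [← h2]; exact h1⟩
          · exact Or.inl ⟨h3, by rw [← h2]; exact h1⟩
      exact key m
    have hnb : ¬ (w (m + 2) = 0 ∧ w (m + 3) = 0) := by
      rintro ⟨h1, h2⟩
      rcases hwm with ⟨h3, h4⟩ | ⟨h3, h4⟩
      · exact F.not_both (by omega) (h3.symm.trans h1) (h4.symm.trans h2)
      · exact F.not_both (by omega) (h4.symm.trans h2) (h3.symm.trans h1)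
    rcases le_or_gt (s (m + 4)) (s (m + 5)) with hc | hc
    · -- `d (W + 1) ≥ s + 1` is enough
      have fin : ∀ W, s (m + 5) + W ≤ e 0 → s (m + 4) + 1 ≤ s (m + 3) * (W + 1) →
          s (m + 4) * (s (m + 4) + 1) ≤ s (m + 3) * (e 0 + 1) := by
        intro W h1 h2
        have h3 := mul_le_mul_of_nonneg_left h1 (by linarith : 0 ≤ s (m + 3))
        have h4 : s (m + 5) * s (m + 3) = s (m + 4) ^ 2 - 1 := hcas
        linarith
      -- `s + 1 ≤ μ d`
      have hsd : s (m + 4) + 1 ≤ μ * s (m + 3) := by
        have : s (m + 4) = μ * s (m + 3) - s (m + 2) := hsr2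
        linarith
      -- for `μ ≥ 2` the sequence increases
      have hinc : 2 ≤ μ → μ ≤ s (m + 2) ∧ μ ≤ s (m + 3) := by
        intro hm
        have key : ∀ k, s k ≤ s (k + 1) ∧ 0 ≤ s k := by
          intro k
          induction k with
          | zero => rw [F.s0, F.s1]; norm_num
          | succ k ih =>
            refine ⟨?_, by linarith [ih.1, ih.2]⟩
            have h1 := F.sr k
            rw [h1]
            linarith [mul_nonneg (by linarith : 0 ≤ μ - 2) (by linarith [ih.1, ih.2] : 0 ≤ s (k + 1)), ih.1, ih.2]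
        have key2 : ∀ k, μ ≤ s (k + 2) := by
          intro k
          induction k with
          | zero => rw [F.s2]
          | succ k ih => exact ih.trans (key (k + 2)).1
        exact ⟨key2 m, key2 (m + 1)⟩
      rcases F.wz (m + 2) with hz | hz
      · -- right angle at the last wall
        have hp : 1 ≤ w (m + 3) := by
          rcases F.wz (m + 3) with h1 | h1
          · exact (hnb ⟨hz, h1⟩).elim
          · exact h1
        have hV := F.V (m + 3) (by omega)
        have e3 : m + 3 + 1 = m + 4 := by omega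
        rw [e3, hw4, hz] at hV
        have hsum' : e (m + 3) + e (m + 5) = μ * e (m + 4) := by
          have : w (m + 3 + 1) = 0 := by rw [e3, hw4, hz]
          rw [this] at hsum
          have h1 : e (m + 3) + e (m + 5) = μ * e (m + 4) + 0 * v := hsum
          linarith
        have hprod' : e (m + 3) * e (m + 5) = e (m + 4) ^ 2 + v ^ 2 - w (m + 3) * v * e (m + 4) - 1 :=
          hprod
        have hW0 : psum w s (m + 3) = psum w s (m + 1) + w (m + 3) * s (m + 3) := by
          rw [hP3, hz]
          ring
        have h00 : e 0 = s (m + 5) * e (m + 4) - s (m + 4) * e (m + 5) + psum w s (m + 3) * v := by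
          have h1 : e 0 = s (m + 5) * e (m + 4) - s (m + 4) * e (m + 5) + psum w s (m + 4) * v := h0
          rw [h1, hP, hw4, hz]
          ring
        have hWv : psum w s (m + 3) ≤ psum w s (m + 3) * v := by
          have := F.psum_nonneg (k := m + 3) (by omega)
          exact le_mul_of_one_le_right this hv
        have hWd : s (m + 3) ≤ psum w s (m + 3) := by
          rw [hW0]
          linarith [le_mul_of_one_le_left (by linarith : 0 ≤ s (m + 3)) hp]
        rcases le_total 2 μ with hm | hm
        · -- `μ ≥ 2`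
          obtain ⟨hi1, hi2⟩ := hinc hm
          have h1 := rt_one (by linarith) hE hv (by linarith : v + 1 ≤ w (m + 3) * e (m + 4)) hz5 hD
            hsum' hprod'
          have h2 : e (m + 5) ≤ e (m + 4) - w (m + 3) := by
            linarith [mul_nonneg (by linarith : 0 ≤ μ - 2) hz5]
          have h3 : s (m + 5) ≤ s (m + 5) * e (m + 4) - s (m + 4) * e (m + 5) := by
            have h4 : s (m + 4) * e (m + 5) ≤ s (m + 4) * (e (m + 4) - w (m + 3)) :=
              mul_le_mul_of_nonneg_left h2 (by linarith)
            have h5 : 0 ≤ (s (m + 5) - s (m + 4)) * (e (m + 4) - 1) :=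
              mul_nonneg (by linarith) (by linarith)
            have h6 : s (m + 4) ≤ s (m + 4) * w (m + 3) := le_mul_of_one_le_right (by linarith) hp
            linarith
          refine fin (s (m + 3)) (by linarith) ?_
          linarith [mul_nonneg (by linarith : 0 ≤ s (m + 3) + 1 - μ) (by linarith : 0 ≤ s (m + 3))]
        · -- `μ ≤ 2`
          have h1 := rt_two (a := s (m + 5)) (d := s (m + 3)) (s := s (m + 4)) (by linarith) hμ2
            (by linarith) (by linarith) ?_ ?_ hE hv
            (by linarith : v + 1 ≤ w (m + 3) * e (m + 4)) hz5 hD hsum' hprod'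
          · have h2 : s (m + 5) - s (m + 3) ≤ w (m + 3) * (s (m + 5) - s (m + 3)) := by
              have : 0 ≤ (w (m + 3) - 1) * (s (m + 5) - s (m + 3)) := by
                apply mul_nonneg (by linarith)
                have : s (m + 5) = μ * s (m + 4) - s (m + 3) := hsr
                linarith [mul_nonneg (by linarith : 0 ≤ 2 - μ) (by linarith : 0 ≤ s (m + 4))]
              linarith
            -- `W ≥ d + 1`
            have h3 : s (m + 3) + 1 ≤ psum w s (m + 3) := by
              rw [hW0]
              have h4 : 1 ≤ psum w s (m + 1) := by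
                have h5 : psum w s (m + 1) = psum w s m + w (m + 1) * s (m + 1) := rfl
                have h6 := F.psum_nonneg (k := m) (by omega)
                have h7 : w (m + 1) = w (m + 3) := (F.wp (m + 1)).symm
                rw [h5, h7]
                linarith [le_mul_of_one_le_left (by linarith : 0 ≤ s (m + 1)) hp]
              linarith [le_mul_of_one_le_left (by linarith : 0 ≤ s (m + 3)) hp]
            refine fin 1 (by linarith) ?_
            linarith [mul_nonneg (by linarith : 0 ≤ 2 - μ) (by linarith : 0 ≤ s (m + 3))]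
          · -- `d ≤ a`
            have : s (m + 5) = μ * s (m + 4) - s (m + 3) := hsr
            have h2 : s (m + 4) = μ * s (m + 3) - s (m + 2) := hsr2
            have h3 : s (m + 5) * s (m + 3) = s (m + 4) ^ 2 - 1 := hcas
            by_contra hcon
            have hcon := not_le.1 hcon
            have h4 : s (m + 4) < s (m + 3) := by linarith
            linarith [mul_le_mul_of_nonneg_right hc (by linarith : 0 ≤ s (m + 3)),
              mul_le_mul_of_nonneg_left h4.le (by linarith : 0 ≤ s (m + 4))]
          · have : s (m + 5) = μ * s (m + 4) - s (m + 3) := hsr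
            linarith
      · -- the last wall is not a right angle
        have hh : e (m + 5) ≤ e (m + 4) + v - 1 := small_le (F.wn (m + 3)) hE hv hz5 hD hprod
        have hWn := F.psum_nonneg (k := m + 3) (by omega)
        have h1 := caseAC (W := psum w s (m + 3)) (q := w (m + 2)) (y := e 0) hs hc hE hv hz hWn hh
          (by
            have h2 : e 0 = s (m + 5) * e (m + 4) - s (m + 4) * e (m + 5) + psum w s (m + 4) * v := h0
            rw [h2, hP, hw4])
        refine fin _ h1 ?_
        have h2 : s (m + 2) ≤ psum w s (m + 3) := by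
          rw [hP3]
          have h3 : s (m + 2) ≤ w (m + 2) * s (m + 2) := le_mul_of_one_le_left (by linarith) hz
          have h4 : 0 ≤ w (m + 3) * s (m + 3) := mul_nonneg (F.wn _) (by linarith)
          linarith
        rcases le_total 2 μ with hm | hm
        · obtain ⟨hi1, hi2⟩ := hinc hm
          linarith [mul_nonneg (by linarith : 0 ≤ psum w s (m + 3) + 1 - μ) (by linarith : 0 ≤ s (m + 3))]
        · linarith [mul_nonneg (by linarith : 0 ≤ psum w s (m + 3) + 1 - μ) (by linarith : 0 ≤ s (m + 3))]
    · -- `a < s`: reduction to the index before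
      have hlt : s (m + 4) * (s (m + 4) - s (m + 3)) < 1 := by
        have h3 : s (m + 5) * s (m + 3) = s (m + 4) ^ 2 - 1 := hcas
        linarith [mul_lt_mul_of_pos_right hc (by linarith : 0 < s (m + 3))]
      by_cases hw : m = 0 ∧ w 1 = 0
      · -- index five, right angle
        obtain ⟨hm, hw1⟩ := hw
        subst hm
        have hs3 : s 3 = μ ^ 2 - 1 := F.s3
        have hs4 : s 4 = μ ^ 3 - 2 * μ := F.s4
        have hs2 : s 2 = μ := F.s2
        have hs5 : s 5 = μ ^ 4 - 3 * μ ^ 2 + 1 := by
          rw [F.sr 3, hs4, hs3]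
          ring
        have hw3 : w 3 = 0 := by rw [F.wp 1, hw1]
        have hp : 1 ≤ w 2 := by
          rcases F.wz 2 with h1 | h1
          · exact (F.not_both (by norm_num) hw1 h1).elim
          · exact h1
        have hV := F.V 2 (by norm_num)
        have hV' : v + 1 ≤ w 2 * e 3 := by
          have h1 : v + 1 ≤ w 3 * e 2 + w 2 * e 3 := hV
          rw [hw3] at h1
          linarith
        have E3 := F.E 3 (by norm_num) (by norm_num)
        have E4 := F.E 4 (by norm_num) (by norm_num)
        have D2 := F.D 2 (by norm_num)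
        have hsum2 : e 2 + e 4 = μ * e 3 := by
          have h1 : e 2 + e 4 = μ * e 3 + w 3 * v := F.sum 2
          rw [hw3] at h1
          linarith
        have hprod2 : e 2 * e 4 = e 3 ^ 2 + v ^ 2 - w 2 * v * e 3 - 1 := F.prod 2
        have h03 : e 0 = s 4 * e 3 - s 3 * e 4 + w 2 * μ * v := by
          have h1 : e 0 = s 4 * e 3 - s 3 * e 4 + psum w s 3 * v := F.e0_eq 3
          have h2 : psum w s 3 = w 2 * μ := by
            show ((0 + w 1 * s 1) + w 2 * s 2) + w 3 * s 3 = _
            rw [hw1, hw3, hs2]
            ring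
          rw [h1, h2]
        have hm3 : 3 ≤ μ ^ 2 := by
          have h1 : 1 ≤ s 5 := ha
          rw [hs5] at h1
          by_contra hcon
          linarith [mul_pos (by linarith : 0 < μ ^ 2) (by linarith [not_le.1 hcon] : 0 < 3 - μ ^ 2)]
        have hpv : μ ≤ w 2 * μ * v := by
          have h1 : 1 ≤ w 2 * v := by
            linarith [mul_nonneg (by linarith : 0 ≤ w 2 - 1) (by linarith : 0 ≤ v - 1)]
          linarith [mul_nonneg (by linarith : 0 ≤ μ) (by linarith : 0 ≤ w 2 * v - 1)]
        show s 4 * (s 4 + 1) ≤ s 3 * (e 0 + 1)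
        have hc' : s 5 < s 4 := hc
        have hd' : 1 ≤ s 3 := hd
        have hs' : 1 ≤ s 4 := hs
        rcases le_or_gt (s 4) (s 3) with h43 | h43
        · -- `s 4 ≤ s 3`
          have hda : s 2 ≤ s 4 := by
            rw [hs2, hs4]
            linarith [mul_nonneg (by linarith : 0 ≤ μ) (by linarith : 0 ≤ μ ^ 2 - 3)]
          have h1 := rt_two (a := s 4) (d := s 2) (s := s 3) (by linarith) hμ2 (by linarith)
            (by rw [hs2]; linarith) hda (by rw [hs4, hs3, hs2]; ring) E3 hv hV' (by linarith) D2
            hsum2 hprod2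
          have h2 : s 4 ≤ e 0 := by
            rw [h03]
            have h3 : s 4 - s 2 ≤ w 2 * (s 4 - s 2) := by
              have : 0 ≤ (w 2 - 1) * (s 4 - s 2) := mul_nonneg (by linarith) (by linarith)
              linarith
            rw [hs2] at h3 h1
            linarith
          linarith [mul_le_mul h43 (by linarith : s 4 + 1 ≤ e 0 + 1) (by linarith) (by linarith)]
        · have h7 : s 7 = s 4 ^ 2 - s 3 ^ 2 := by
            rw [F.sr 5, F.sr 4, hs5, hs4, hs3]
            ring
          have h8 : 0 < s 7 := by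
            rw [h7]
            linarith [mul_pos (by linarith : 0 < s 4 - s 3) (by linarith : 0 < s 4 + s 3)]
          have h9 := F.sz 7 h8
          have h10 : 0 ≤ μ ^ 4 - 4 * μ ^ 2 + 2 := by
            have h11 : s 7 - 1 = (μ ^ 2 - 1) * (μ ^ 4 - 4 * μ ^ 2 + 2) := by
              rw [h7, hs4, hs3]
              ring
            by_contra hcon
            have := mul_neg_of_pos_of_neg (by linarith : 0 < μ ^ 2 - 1) (not_le.1 hcon)
            linarith
          have h1 := rt_one (by linarith) E3 hv hV' (by linarith) D2 hsum2 hprod2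
          -- `s 4 ≤ s 4 e 3 - s 3 e 4`
          have h2 : μ * s 4 ≤ μ * (s 4 * e 3 - s 3 * e 4) := by
            have h3 : s 3 * (μ * e 4) ≤ s 3 * (2 * (e 3 - w 2)) :=
              mul_le_mul_of_nonneg_left h1 (by linarith)
            have h4 : 2 * s 3 ≤ μ * s 4 := by
              rw [hs3, hs4]
              linarith
            have h5 : 0 ≤ (μ * s 4 - 2 * s 3) * (e 3 - 1) := mul_nonneg (by linarith) (by linarith)
            have h6 : s 3 ≤ s 3 * w 2 := le_mul_of_one_le_right (by linarith) hp
            linarith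
          have h3 := le_of_mul_le_mul_left h2 (by linarith)
          have h4 : s 4 + μ ≤ e 0 := by
            rw [h03]
            linarith
          have h5 : s 5 * s 3 = s 4 ^ 2 - 1 := hcas
          have h6 : s 4 = μ * s 3 - s 2 := F.sr 2
          linarith [mul_nonneg (by linarith : 0 ≤ s 3) (by linarith : 0 ≤ e 0 - s 4 - μ),
            mul_nonneg (by linarith : 0 ≤ s 3) (by linarith : 0 ≤ s 4 - s 5)]
      · have IH := ih (F.mono (by omega)) (fun h1 h2 => (hw ⟨h1, h2⟩).elim)
        -- `K_j ≤ K_(j-1)`
        have h3 : s (m + 4) * s (m + 2) = s (m + 3) ^ 2 - 1 := hcas2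
        have h4 : (s (m + 4) - s (m + 3)) * (s (m + 3) - 1) ≤ 1 := by
          rcases le_total (s (m + 4)) (s (m + 3)) with h5 | h5
          · have := mul_nonneg (by linarith : 0 ≤ s (m + 3) - s (m + 4))
              (by linarith : 0 ≤ s (m + 3) - 1)
            linarith
          · have h6 := mul_nonneg (by linarith : 0 ≤ s (m + 4) - s (m + 3))
              (by linarith : 0 ≤ s (m + 4) - (s (m + 3) - 1))
            linarith
        have h5 : s (m + 2) * (s (m + 4) * (s (m + 4) + 1)) ≤ s (m + 3) * (s (m + 3) * (s (m + 3) + 1)) := by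
          have h6 : s (m + 2) * (s (m + 4) * (s (m + 4) + 1)) =
              (s (m + 3) ^ 2 - 1) * (s (m + 4) + 1) := by
            rw [← h3]
            ring
          have h7 : 0 ≤ (s (m + 3) + 1) * (1 - (s (m + 4) - s (m + 3)) * (s (m + 3) - 1)) :=
            mul_nonneg (by linarith) (by linarith)
          rw [h6]
          linarith
        have h6 := mul_le_mul_of_nonneg_left IH (by linarith : 0 ≤ s (m + 3))
        have h7 : s (m + 2) * (s (m + 4) * (s (m + 4) + 1)) ≤ s (m + 2) * (s (m + 3) * (e 0 + 1)) := by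
          linarith
        exact le_of_mul_le_mul_left h7 (by linarith)

end Fan

end Pool.Agent.Helper32.DY
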