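import Pool.Agent.Helper32.DY.G2b1

/-!
# Assembly of [GAP2] (b): `j ≥ 4` (MP_d13a5e_al)

`G2b37`: one of the labels at least one; `G2b9`: `b1² = 1/2`, `b2 < 1`, `j = 4`; the other cases with labels less than one are
killed by (U1) and the spectrum gap, or `φ w < 0`.
-/

set_option autoImplicit false

namespace DY

open Set

variable {E : Type*} [AddCommGroup E] [Module ℝ E]
variable {Ψ : Set E} {B : E →ₗ[ℝ] E →ₗ[ℝ] ℝ} {ρ φ : E →ₗ[ℝ] ℝ} {t d1 d2 x x' : E}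
variable {g x1 x2 g' x1' x2' : ℝ}

theorem sq_two32 (c : ℝ) : sq c 2 = 2 * c := by
  show 2 * c * 1 - 0 = 2 * c
  ring

theorem sq_three32 (c : ℝ) : sq c 3 = (2 * c) ^ 2 - 1 := by
  show 2 * c * sq c 2 - 1 = _
  rw [sq_two32]
  ring

theorem sq_four32 (c : ℝ) : sq c 4 = (2 * c) ^ 3 - 2 * (2 * c) := by
  show 2 * c * sq c 3 - sq c 2 = _
  rw [sq_three32, sq_two32]
  ring

theorem sq_five32 (c : ℝ) : sq c 5 = (2 * c) ^ 4 - 3 * (2 * c) ^ 2 + 1 := by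
  show 2 * c * sq c 4 - sq c 3 = _
  rw [sq_four32, sq_three32]
  ring

theorem sq_six32 (c : ℝ) : sq c 6 = (2 * c) ^ 5 - 4 * (2 * c) ^ 3 + 3 * (2 * c) := by
  show 2 * c * sq c 5 - sq c 4 = _
  rw [sq_five32, sq_four32]
  ring

/-- `m1 ≥ 5`, `j = 4` -/
theorem arA32 {s b q : ℝ} (hs : 0 < s) (hs2 : 0 < s ^ 3 - 2 * s) (hb : 5 / 2 ≤ (2 * b) ^ 2)
    (hq : q = b ^ 2 + (s / 2) ^ 2 - 1) :
    1 ≤ ((s ^ 2 - 1 - 1) / (s ^ 3 - 2 * s)) ^ 2 + 2 * ((s ^ 2 - 1 - 1) / (s ^ 3 - 2 * s)) * √q := by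
  have h1 : 0 < s ^ 2 - 2 := by
    have : s ^ 3 - 2 * s = s * (s ^ 2 - 2) := by ring
    rw [this] at hs2
    exact (mul_pos_iff_of_pos_left hs).1 hs2
  have e1 : (s ^ 2 - 1 - 1) / (s ^ 3 - 2 * s) = 1 / s := by
    rw [div_eq_div_iff hs2.ne' hs.ne']
    ring
  rw [e1]
  have h2 : (s ^ 2 - 1) / (2 * s) ≤ √q := by
    apply Real.le_sqrt_of_sq_le
    rw [div_pow, div_le_iff₀ (by positivity), hq]
    nlinarith
  have h3 : 1 / s * ((s ^ 2 - 1) / (2 * s)) ≤ 1 / s * √q := mul_le_mul_of_nonneg_left h2 (by positivity)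
  have e2 : 1 / s * ((s ^ 2 - 1) / (2 * s)) = (1 - (1 / s) ^ 2) / 2 := by
    field_simp
  rw [e2] at h3
  linarith

/-- `m1 = 4`, `j = 5` -/
theorem arB32 {s b q : ℝ} (hs : 0 < s) (hs2 : s < 2) (h5 : 1 ≤ s ^ 4 - 3 * s ^ 2 + 1)
    (hb : (2 * b) ^ 2 = 2) (hq : q = b ^ 2 + (s / 2) ^ 2 - 1) :
    1 ≤ ((s ^ 3 - 2 * s - 1) / (s ^ 4 - 3 * s ^ 2 + 1)) ^ 2 +
      2 * ((s ^ 3 - 2 * s - 1) / (s ^ 4 - 3 * s ^ 2 + 1)) * √q := by
  have h3 : 3 ≤ s ^ 2 := by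
    by_contra hcon
    rw [not_le] at hcon
    have := mul_pos (by positivity : 0 < s ^ 2) (by linarith : 0 < 3 - s ^ 2)
    nlinarith
  have hs17 : 17 / 10 < s := by nlinarith
  have f1 : 0 < s ^ 2 - s - 1 := by nlinarith
  have f2 : 0 < s ^ 2 + s - 1 := by nlinarith
  have e1 : (s ^ 3 - 2 * s - 1) / (s ^ 4 - 3 * s ^ 2 + 1) = (s + 1) / (s ^ 2 + s - 1) := by
    have e2 : s ^ 3 - 2 * s - 1 = (s ^ 2 - s - 1) * (s + 1) := by ring
    have e3 : s ^ 4 - 3 * s ^ 2 + 1 = (s ^ 2 - s - 1) * (s ^ 2 + s - 1) := by ring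
    rw [e2, e3, mul_div_mul_left _ _ f1.ne']
  rw [e1]
  set τ := (s + 1) / (s ^ 2 + s - 1) with hτ
  have hτ0 : 0 < τ := by positivity
  -- `(1 - τ²) / (2 τ) ≤ √q`
  have h2 : (s ^ 2 - 2) * s * (s + 2) / (2 * ((s + 1) * (s ^ 2 + s - 1))) ≤ √q := by
    apply Real.le_sqrt_of_sq_le
    rw [div_pow, div_le_iff₀ (by positivity), hq]
    have e4 : b ^ 2 + (s / 2) ^ 2 - 1 = (s ^ 2 - 2) / 4 := by nlinarith
    rw [e4]
    have h6 : (s ^ 2 - 2) * (s * (s + 2)) ^ 2 ≤ ((s + 1) * (s ^ 2 + s - 1)) ^ 2 := by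
      have k1 : (s ^ 2 - 2) * (s * (s + 2)) ^ 2 ≤ (3 / 2) ^ 2 * (s * (s + 2)) ^ 2 :=
        mul_le_mul_of_nonneg_right (by nlinarith) (sq_nonneg _)
      have k2 : 3 / 2 * (s * (s + 2)) ≤ (s + 1) * (s ^ 2 + s - 1) := by nlinarith
      have k3 : (3 / 2 * (s * (s + 2))) ^ 2 ≤ ((s + 1) * (s ^ 2 + s - 1)) ^ 2 :=
        pow_le_pow_left₀ (by positivity) k2 2
      nlinarith
    have h7 := mul_le_mul_of_nonneg_left h6 (by linarith : 0 ≤ s ^ 2 - 2)
    nlinarith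
  have h4 := mul_le_mul_of_nonneg_left h2 hτ0.le
  have e5 : τ * ((s ^ 2 - 2) * s * (s + 2) / (2 * ((s + 1) * (s ^ 2 + s - 1)))) = (1 - τ ^ 2) / 2 := by
    have g1 := f2.ne'
    have g2 : s + 1 ≠ 0 := by positivity
    rw [hτ]
    generalize hD : s ^ 2 + s - 1 = D at g1
    have g3 : (s + 1) / D * ((s ^ 2 - 2) * s * (s + 2) / (2 * ((s + 1) * D))) =
        (s ^ 2 - 2) * s * (s + 2) / (2 * D ^ 2) := by
      field_simp
    have g4 : (1 - ((s + 1) / D) ^ 2) / 2 = (D ^ 2 - (s + 1) ^ 2) / (2 * D ^ 2) := by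
      field_simp
    rw [g3, g4]
    congr 1
    rw [← hD]
    ring
  rw [e5] at h4
  linarith

/-- `m1 = 3`, `j = 6` -/
theorem arC32 {s b q : ℝ} (hs : 0 < s) (h3 : 3 < s ^ 2) (h6 : 1 ≤ s ^ 5 - 4 * s ^ 3 + 3 * s)
    (hb : b = 1 / 2) (hq : q = b ^ 2 + (s / 2) ^ 2 - 1) :
    1 ≤ ((s ^ 4 - 3 * s ^ 2 + 1 - 1) / (s ^ 5 - 4 * s ^ 3 + 3 * s)) ^ 2 +
      2 * ((s ^ 4 - 3 * s ^ 2 + 1 - 1) / (s ^ 5 - 4 * s ^ 3 + 3 * s)) * √q := by
  have hs17 : 17 / 10 < s := by nlinarith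
  have f1 : 0 < s * (s ^ 2 - 3) := by
    have : 0 < s ^ 2 - 3 := by linarith
    positivity
  have f2 : 0 < s ^ 2 - 1 := by linarith
  have e1 : (s ^ 4 - 3 * s ^ 2 + 1 - 1) / (s ^ 5 - 4 * s ^ 3 + 3 * s) = s / (s ^ 2 - 1) := by
    have e2 : s ^ 4 - 3 * s ^ 2 + 1 - 1 = (s * (s ^ 2 - 3)) * s := by ring
    have e3 : s ^ 5 - 4 * s ^ 3 + 3 * s = (s * (s ^ 2 - 3)) * (s ^ 2 - 1) := by ring
    rw [e2, e3, mul_div_mul_left _ _ f1.ne']
  rw [e1]
  set τ := s / (s ^ 2 - 1) with hτ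
  have hτ0 : 0 < τ := by positivity
  have h2 : (s ^ 4 - 3 * s ^ 2 + 1) / (2 * (s * (s ^ 2 - 1))) ≤ √q := by
    apply Real.le_sqrt_of_sq_le
    rw [div_pow, div_le_iff₀ (by positivity), hq, hb]
    have e4 : (1 / 2 : ℝ) ^ 2 + (s / 2) ^ 2 - 1 = (s ^ 2 - 3) / 4 := by ring
    rw [e4]
    -- `y (y - 3) (y - 1) ≥ 1`, `y = s ^ 2`
    have h7 : 1 ≤ s ^ 2 * (s ^ 2 - 3) * (s ^ 2 - 1) := by
      have k1 : s ^ 2 * (s ^ 2 - 3) * (s ^ 2 - 1) = s * (s ^ 5 - 4 * s ^ 3 + 3 * s) := by ring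
      rw [k1]
      nlinarith
    nlinarith
  have h4 := mul_le_mul_of_nonneg_left h2 hτ0.le
  have e5 : τ * ((s ^ 4 - 3 * s ^ 2 + 1) / (2 * (s * (s ^ 2 - 1)))) = (1 - τ ^ 2) / 2 := by
    have g1 := f2.ne'
    rw [hτ]
    field_simp
    ring
  rw [e5] at h4
  linarith

open Pool.Agent.Helper32.DY in
/-- `m1 = 3`, `j = 4`: `φ w < 0` -/
theorem Xs.fw_neg32 (X : Xs Ψ B ρ φ t d1 d2 x x' g x1 x2 g' x1' x2') (h0 : B d1 d2 = 0)
    (hb1 : -B t d1 = 1 / 2) (hG : Good (-B t d2) (φ d2) 3) :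
    1 + φ d1 + 2 * -B t d2 * φ d2 < 0 := by
  by_contra hcon
  rw [not_lt] at hcon
  have hR := Pool.Agent.Helper62.DY.rt_of_tri X.L.tri
  have hm := hG.hm 2 (by omega)
  have hp := hG.hpos
  have hm' : sq (-B t d2) 3 * φ d2 + sq (-B t d2) 2 < 0 := by
    rcases hm.lt_or_eq with h2 | h2
    · exact h2
    · exfalso
      refine Pool.Agent.Helper80.DY.no_flat X.L X.e X.e' X.p1 X.p1'
        (α := sq (-B t d2) 2) (β := sq (-B t d2) 3) ?_ (by
          have : sq (-B t d2) (2 + 1) * φ d2 + sq (-B t d2) 2 = 0 := h2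
          linarith)
      have e : sq (-B t d2) 2 • t + (0 : ℝ) • d1 + sq (-B t d2) 3 • d2 =
          sq (-B t d2) 2 • t + sq (-B t d2) (2 + 1) • d2 := by module
      rw [e]
      exact X.L.tri.cp'.mem 2
  have e4 : (3 : ℕ) + 1 = 4 := rfl
  rw [e4, sq_four32, sq_three32] at hp
  rw [sq_three32, sq_two32] at hm'
  -- for each of the two roots
  have key : ∀ G v y : ℝ, G • t + v • d1 + y • d2 ∈ Ψ → 1 ≤ v → G + v * φ d1 + y * φ d2 = 0 →
      y = 2 * -B t d2 * v := by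
    intro G v y hxm hv hφ
    have hz : ∀ k, 0 ≤ fe (-B t d1) (-B t d2) (-B d1 d2) v y G k := fun k =>
      z1_nonneg (fe_z hR hxm (by linarith) k)
    have z3 := hz 3
    have z4 := hz 4
    have w0 : fw (-B t d1) (-B d1 d2) 0 = 2 * -B t d1 := rfl
    have w1 : fw (-B t d1) (-B d1 d2) 1 = 2 * -B d1 d2 := rfl
    have w2 : fw (-B t d1) (-B d1 d2) 2 = 2 * -B t d1 := rfl
    have w3 : fw (-B t d1) (-B d1 d2) 3 = 2 * -B d1 d2 := rfl
    have f2 : fe (-B t d1) (-B t d2) (-B d1 d2) v y G 2 = 2 * -B t d2 * G - y := by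
      show 2 * -B t d2 * G + fw (-B t d1) (-B d1 d2) 1 * v - y = _
      rw [w1, h0]
      ring
    have f3 : fe (-B t d1) (-B t d2) (-B d1 d2) v y G 3 =
        2 * -B t d2 * (2 * -B t d2 * G - y) + v - G := by
      show 2 * -B t d2 * fe (-B t d1) (-B t d2) (-B d1 d2) v y G 2 +
        fw (-B t d1) (-B d1 d2) 2 * v - G = _
      rw [f2, w2, hb1]
      ring
    have f4 : fe (-B t d1) (-B t d2) (-B d1 d2) v y G 4 =
        2 * -B t d2 * (2 * -B t d2 * (2 * -B t d2 * G - y) + v - G) - (2 * -B t d2 * G - y) := by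
      show 2 * -B t d2 * fe (-B t d1) (-B t d2) (-B d1 d2) v y G 3 +
        fw (-B t d1) (-B d1 d2) 3 * v - fe (-B t d1) (-B t d2) (-B d1 d2) v y G 2 = _
      rw [f3, f2, w3, h0]
      ring
    rw [f3] at z3
    rw [f4] at z4
    set s := 2 * -B t d2 with hs
    set F3 := s * (s * G - y) + v - G with hF3
    set F4 := s * F3 - (s * G - y) with hF4
    have hid : F4 * -((s ^ 2 - 1) * φ d2 + s) + F3 * ((s ^ 3 - 2 * s) * φ d2 + (s ^ 2 - 1)) +
        v * (1 + φ d1 + s * φ d2) = 0 := by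
      rw [hF4, hF3]
      linear_combination hφ
    have k1 := mul_nonneg z4 (by linarith : 0 ≤ -((s ^ 2 - 1) * φ d2 + s))
    have k2 := mul_nonneg z3 hp.le
    have k3 := mul_nonneg (by linarith : 0 ≤ v) hcon
    have k4 : F4 * -((s ^ 2 - 1) * φ d2 + s) = 0 := by linarith
    have k5 : F3 * ((s ^ 3 - 2 * s) * φ d2 + (s ^ 2 - 1)) = 0 := by linarith
    have l4 : F4 = 0 := by
      rcases mul_eq_zero.1 k4 with h | h
      · exact h
      · linarith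
    have l3 : F3 = 0 := by
      rcases mul_eq_zero.1 k5 with h | h
      · exact h
      · linarith
    have l2 : s * G - y = 0 := by
      rw [l3, mul_zero] at hF4
      linarith
    have l1 : v = G := by
      rw [l2, mul_zero] at hF3
      linarith
    rw [l1]
    linarith
  have hxm : g • t + x1 • d1 + x2 • d2 ∈ Ψ := by
    rw [← X.e]
    exact X.L.xm
  have hxm' : g' • t + x1' • d1 + x2' • d2 ∈ Ψ := by
    rw [← X.e']
    exact X.L.xm'
  have k1 := key _ _ _ hxm X.p1 (by have := X.c.fz; linarith)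
  have k2 := key _ _ _ hxm' X.p1' (by have := X.c'.fz; linarith)
  have k3 := X.st
  rw [k1, k2] at k3
  nlinarith

open Pool.Agent.Helper32.DY in
/-- `m1 = 3`, `j = 5`: `φ w < 0` -/
theorem Xs.fw_neg32' (X : Xs Ψ B ρ φ t d1 d2 x x' g x1 x2 g' x1' x2') (h0 : B d1 d2 = 0)
    (hb1 : -B t d1 = 1 / 2) (hG : Good (-B t d2) (φ d2) 4) :
    1 + φ d1 + 2 * -B t d2 * φ d2 < 0 := by
  by_contra hcon
  rw [not_lt] at hcon
  have hR := Pool.Agent.Helper62.DY.rt_of_tri X.L.tri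
  have hm := hG.hm 3 (by omega)
  have hp := hG.hpos
  have hm' : sq (-B t d2) 4 * φ d2 + sq (-B t d2) 3 < 0 := by
    rcases hm.lt_or_eq with h2 | h2
    · exact h2
    · exfalso
      refine Pool.Agent.Helper80.DY.no_flat X.L X.e X.e' X.p1 X.p1'
        (α := sq (-B t d2) 3) (β := sq (-B t d2) 4) ?_ (by
          have : sq (-B t d2) (3 + 1) * φ d2 + sq (-B t d2) 3 = 0 := h2
          linarith)
      have e : sq (-B t d2) 3 • t + (0 : ℝ) • d1 + sq (-B t d2) 4 • d2 =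
          sq (-B t d2) 3 • t + sq (-B t d2) (3 + 1) • d2 := by module
      rw [e]
      exact X.L.tri.cp'.mem 3
  have e4 : (4 : ℕ) + 1 = 5 := rfl
  rw [e4, sq_five32, sq_four32] at hp
  rw [sq_four32, sq_three32] at hm'
  -- the equation for each of the two roots, and the alternative
  have key : ∀ G v y : ℝ, G • t + v • d1 + y • d2 ∈ Ψ → 1 ≤ v → G + v * φ d1 + y * φ d2 = 0 →
      (y = 2 * -B t d2 * v ∧ 1 + φ d1 + 2 * -B t d2 * φ d2 = 0) ∨
      (y = ((2 * -B t d2) ^ 3 - 2 * -B t d2) * v ∧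
        1 + φ d1 + 2 * -B t d2 * φ d2 =
          -(((2 * -B t d2) ^ 3 - 2 * (2 * -B t d2)) * φ d2 + ((2 * -B t d2) ^ 2 - 1))) := by
    intro G v y hxm hv hφ
    have hz : ∀ k, 0 ≤ fe (-B t d1) (-B t d2) (-B d1 d2) v y G k := fun k =>
      z1_nonneg (fe_z hR hxm (by linarith) k)
    have z4 := hz 4
    have z5 := hz 5
    have hr := fe_r hR hxm 4
    have w1 : fw (-B t d1) (-B d1 d2) 1 = 2 * -B d1 d2 := rfl
    have w2 : fw (-B t d1) (-B d1 d2) 2 = 2 * -B t d1 := rfl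
    have w3 : fw (-B t d1) (-B d1 d2) 3 = 2 * -B d1 d2 := rfl
    have w4 : fw (-B t d1) (-B d1 d2) 4 = 2 * -B t d1 := rfl
    have w5 : fw (-B t d1) (-B d1 d2) 5 = 2 * -B d1 d2 := rfl
    have f2 : fe (-B t d1) (-B t d2) (-B d1 d2) v y G 2 = 2 * -B t d2 * G - y := by
      show 2 * -B t d2 * G + fw (-B t d1) (-B d1 d2) 1 * v - y = _
      rw [w1, h0]
      ring
    have f3 : fe (-B t d1) (-B t d2) (-B d1 d2) v y G 3 =
        2 * -B t d2 * (2 * -B t d2 * G - y) + v - G := by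
      show 2 * -B t d2 * fe (-B t d1) (-B t d2) (-B d1 d2) v y G 2 +
        fw (-B t d1) (-B d1 d2) 2 * v - G = _
      rw [f2, w2, hb1]
      ring
    have f4 : fe (-B t d1) (-B t d2) (-B d1 d2) v y G 4 =
        2 * -B t d2 * (2 * -B t d2 * (2 * -B t d2 * G - y) + v - G) - (2 * -B t d2 * G - y) := by
      show 2 * -B t d2 * fe (-B t d1) (-B t d2) (-B d1 d2) v y G 3 +
        fw (-B t d1) (-B d1 d2) 3 * v - fe (-B t d1) (-B t d2) (-B d1 d2) v y G 2 = _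
      rw [f3, f2, w3, h0]
      ring
    have f5 : fe (-B t d1) (-B t d2) (-B d1 d2) v y G 5 =
        2 * -B t d2 * (2 * -B t d2 * (2 * -B t d2 * (2 * -B t d2 * G - y) + v - G) -
          (2 * -B t d2 * G - y)) + v - (2 * -B t d2 * (2 * -B t d2 * G - y) + v - G) := by
      show 2 * -B t d2 * fe (-B t d1) (-B t d2) (-B d1 d2) v y G 4 +
        fw (-B t d1) (-B d1 d2) 4 * v - fe (-B t d1) (-B t d2) (-B d1 d2) v y G 3 = _
      rw [f4, f3, w4, hb1]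
      ring
    have e5 : (4 : ℕ) + 1 = 5 := rfl
    simp only [e5] at hr
    rw [f4, f5, w5, w4, hb1, h0] at hr
    rw [f4] at z4
    rw [f5] at z5
    set s := 2 * -B t d2 with hs
    set F3 := s * (s * G - y) + v - G with hF3
    set F4 := s * F3 - (s * G - y) with hF4
    set F5 := s * F4 + v - F3 with hF5
    have hid : (F5 - v) * -((s ^ 3 - 2 * s) * φ d2 + (s ^ 2 - 1)) +
        F4 * ((s ^ 4 - 3 * s ^ 2 + 1) * φ d2 + (s ^ 3 - 2 * s)) +
        v * (1 + φ d1 + s * φ d2) = 0 := by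
      rw [hF5, hF4, hF3]
      linear_combination hφ
    rcases hr with ⟨-, -, h⟩ | ⟨h4, h5, -⟩
    · left
      have h6 : 0 ≤ F5 - v := by
        have := z1_nonneg h
        linarith
      have k1 := mul_nonneg h6 (by linarith : 0 ≤ -((s ^ 3 - 2 * s) * φ d2 + (s ^ 2 - 1)))
      have k2 := mul_nonneg z4 hp.le
      have k3 := mul_nonneg (by linarith : 0 ≤ v) hcon
      have k4 : (F5 - v) * -((s ^ 3 - 2 * s) * φ d2 + (s ^ 2 - 1)) = 0 := by linarith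
      have k5 : F4 * ((s ^ 4 - 3 * s ^ 2 + 1) * φ d2 + (s ^ 3 - 2 * s)) = 0 := by linarith
      have l5 : F5 - v = 0 := by
        rcases mul_eq_zero.1 k4 with h | h
        · exact h
        · linarith
      have l4 : F4 = 0 := by
        rcases mul_eq_zero.1 k5 with h | h
        · exact h
        · linarith
      have l3 : F3 = 0 := by
        rw [l4, mul_zero] at hF5
        linarith
      have l2 : s * G - y = 0 := by
        rw [l3, mul_zero] at hF4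
        linarith
      have l1 : v = G := by
        rw [l2, mul_zero] at hF3
        linarith
      have l0 : v * (1 + φ d1 + s * φ d2) = 0 := by linarith
      refine ⟨?_, ?_⟩
      · rw [l1]
        linarith
      · rcases mul_eq_zero.1 l0 with h | h
        · linarith
        · exact h
    · right
      have l4 : F4 = 0 := by
        have := z1_nonneg h4
        linarith
      have l5 : F5 = 0 := by
        have := z1_nonneg h5
        linarith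
      have l3 : F3 = v := by
        rw [l4, mul_zero] at hF5
        linarith
      have l2 : s * G - y = s * v := by
        rw [l3] at hF4
        linarith
      have l1 : G = s ^ 2 * v := by
        rw [l2] at hF3
        linarith
      refine ⟨?_, ?_⟩
      · rw [l1] at l2
        linarith
      · have h7 : v * (1 + φ d1 + s * φ d2) =
            v * -((s ^ 3 - 2 * s) * φ d2 + (s ^ 2 - 1)) := by
          rw [l4, l5] at hid
          linarith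
        exact mul_left_cancel₀ (by linarith : v ≠ 0) h7
  have hxm : g • t + x1 • d1 + x2 • d2 ∈ Ψ := by
    rw [← X.e]
    exact X.L.xm
  have hxm' : g' • t + x1' • d1 + x2' • d2 ∈ Ψ := by
    rw [← X.e']
    exact X.L.xm'
  have k1 := key _ _ _ hxm X.p1 (by have := X.c.fz; linarith)
  have k2 := key _ _ _ hxm' X.p1' (by have := X.c'.fz; linarith)
  have k3 := X.st
  rcases k1 with ⟨k1, l1⟩ | ⟨k1, l1⟩
  · rcases k2 with ⟨k2, l2⟩ | ⟨k2, l2⟩
    · rw [k1, k2] at k3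
      nlinarith
    · linarith
  · rcases k2 with ⟨k2, l2⟩ | ⟨k2, l2⟩
    · linarith
    · rw [k1, k2] at k3
      nlinarith

/-- (b), a label at least one (helper37) -/
def G2b37 (Ψ : Set E) (B : E →ₗ[ℝ] E →ₗ[ℝ] ℝ) : Prop :=
  GP2 Ψ B fun b1 b2 f1 f2 => (1 ≤ b1 ∨ 1 ≤ b2) ∧ 1 < b1 ^ 2 + b2 ^ 2 ∧ ∃ k, 3 ≤ k ∧ Good b2 f2 k ∧
    ¬ (1 + 2 * b1 * f1 + 2 * b2 * f2 < 0 ∧ b1 = 1 / 2 ∧ (k = 3 ∨ (k = 4 ∧ b2 < 1)))

/-- (b), `m1 = 4`, `j = 4`, `b2 < 1` (helper9) -/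
def G2b9 (Ψ : Set E) (B : E →ₗ[ℝ] E →ₗ[ℝ] ℝ) : Prop :=
  GP2 Ψ B fun b1 b2 _ f2 => 1 < b1 ^ 2 + b2 ^ 2 ∧ (2 * b1) ^ 2 = 2 ∧ b2 < 1 ∧ Good b2 f2 3

/-- the label of `t, d1`: `m1 = 3`, `4` or at least `5` -/
theorem lbl32 {h : E} {b : ℝ} (hC : CP Ψ B t h b) (hb : 1 / 2 ≤ b) :
    b = 1 / 2 ∨ (2 * b) ^ 2 = 2 ∨ 5 / 2 ≤ (2 * b) ^ 2 := by
  have h2 : 0 < sq b 2 := by rw [sq_two32]; linarith
  rcases hC.sq_next h2 with h3 | h3
  · left
    have h4 : sq b 3 = 0 := h3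
    rw [sq_three32] at h4
    nlinarith
  · right
    have h4 : 1 ≤ sq b 3 := h3
    rcases hC.sq_next (n := 3) (by linarith) with h5 | h5
    · left
      have h6 : sq b 4 = 0 := h5
      rw [sq_four32] at h6
      have h7 : 2 * b * ((2 * b) ^ 2 - 2) = 0 := by linear_combination h6
      rcases mul_eq_zero.1 h7 with h8 | h8
      · linarith
      · linarith
    · right
      have h6 : 1 ≤ sq b 4 := h5
      rw [sq_four32] at h6
      by_contra hcon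
      rw [not_le] at hcon
      have h7 : 2 * b < 8 / 5 := by nlinarith
      have h8 : 1 ≤ 2 * b * ((2 * b) ^ 2 - 2) := by
        have : 2 * b * ((2 * b) ^ 2 - 2) = (2 * b) ^ 3 - 2 * (2 * b) := by ring
        linarith
      have h9 : 0 < (2 * b) ^ 2 - 2 := by
        by_contra hc
        rw [not_lt] at hc
        have := mul_nonneg (by linarith : 0 ≤ 2 * b) (by linarith : 0 ≤ -((2 * b) ^ 2 - 2))
        linarith
      nlinarith

/-- **assembly of (b)** -/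
theorem g2b_of32 (hgap : GapU32 Ψ B) (h37 : G2b37 Ψ B) (h9 : G2b9 Ψ B) : G2b Ψ B := by
  intro ρ φ t d1 d2 x x' g x1 x2 g' x1' x2' X h0 hb1 hb2 hP
  obtain ⟨hq, k, hk, hG, hn⟩ := hP
  rcases le_or_gt 1 (-B t d1) with c1 | c1
  · exact h37 _ _ _ _ _ _ _ _ _ _ _ _ _ X h0 hb1 hb2 ⟨Or.inl c1, hq, k, hk, hG, hn⟩
  rcases le_or_gt 1 (-B t d2) with c2 | c2
  · exact h37 _ _ _ _ _ _ _ _ _ _ _ _ _ X h0 hb1 hb2 ⟨Or.inr c2, hq, k, hk, hG, hn⟩
  have hC := X.L.tri.cp'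
  have hkq : kq B t d1 d2 = (-B t d1) ^ 2 + (2 * -B t d2 / 2) ^ 2 - 1 := by
    unfold kq
    rw [h0]
    ring
  have hq0 : 0 < kq B t d1 d2 := by
    rw [hkq]
    have : 2 * -B t d2 / 2 = -B t d2 := by ring
    rw [this]
    linarith
  have hs0 : 0 < 2 * -B t d2 := by linarith
  rcases lbl32 X.L.tri.cp hb1 with h | h | h
  · -- `m1 = 3`
    have h3 : 3 < (2 * -B t d2) ^ 2 := by
      rw [h] at hq
      nlinarith
    rcases Nat.lt_or_ge k 5 with h5 | h5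
    · have hφ : 1 + 2 * -B t d1 * φ d1 + 2 * -B t d2 * φ d2 < 0 := by
        have e : 2 * -B t d1 * φ d1 = φ d1 := by rw [h]; ring
        rw [e]
        rcases Nat.lt_or_ge k 4 with h6 | h6
        · have h7 : k = 3 := by omega
          subst h7
          exact X.fw_neg32 h0 h hG
        · have h7 : k = 4 := by omega
          subst h7
          exact X.fw_neg32' h0 h hG
      refine hn ⟨hφ, h, ?_⟩
      rcases Nat.lt_or_ge k 4 with h6 | h6
      · exact Or.inl (by omega)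
      · exact Or.inr ⟨by omega, c2⟩
    · refine X.u1_kill32' hgap c1 c2 h0 hq0 hG
        (m := 4) (by omega) ?_
      have h6 : 1 ≤ sq (-B t d2) 6 := hC.sq_one_le (hG.hs 5 (by omega))
      show 1 ≤ ((sq (-B t d2) 5 - 1) / sq (-B t d2) 6) ^ 2 +
        2 * ((sq (-B t d2) 5 - 1) / sq (-B t d2) 6) * √(kq B t d1 d2)
      rw [sq_six32] at h6
      rw [sq_five32, sq_six32]
      exact arC32 hs0 h3 h6 h hkq
  · -- `m1 = 4`
    rcases Nat.lt_or_ge k 4 with h5 | h5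
    · have h7 : k = 3 := by omega
      subst h7
      exact h9 _ _ _ _ _ _ _ _ _ _ _ _ _ X h0 hb1 hb2 ⟨hq, h, c2, hG⟩
    · refine X.u1_kill32' hgap c1 c2 h0 hq0 hG
        (m := 3) (by omega) ?_
      have h6 : 1 ≤ sq (-B t d2) 5 := hC.sq_one_le (hG.hs 4 (by omega))
      show 1 ≤ ((sq (-B t d2) 4 - 1) / sq (-B t d2) 5) ^ 2 +
        2 * ((sq (-B t d2) 4 - 1) / sq (-B t d2) 5) * √(kq B t d1 d2)
      rw [sq_five32] at h6
      rw [sq_four32, sq_five32]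
      exact arB32 hs0 (by linarith) h6 h hkq
  · -- `m1 ≥ 5`
    refine X.u1_kill32' hgap c1 c2 h0 hq0 hG
      (m := 2) (by omega) ?_
    have h6 : 0 < sq (-B t d2) 4 := hG.hs 3 (by omega)
    show 1 ≤ ((sq (-B t d2) 3 - 1) / sq (-B t d2) 4) ^ 2 +
      2 * ((sq (-B t d2) 3 - 1) / sq (-B t d2) 4) * √(kq B t d1 d2)
    rw [sq_four32] at h6
    rw [sq_three32, sq_four32]
    exact arA32 hs0 h6 h hkq

end DY
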