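import Pool.Agent.Helper7.DY.Gap2
import Pool.Agent.Helper78.DY.U1
import Pool.Agent.Helper54.DY.Det3
import Pool.Agent.Helper32.DY.Root
import Pool.Agent.Helper9.DY.Pencil

/-!
# [GAP2], `j ≥ 4`, labels less than one (MP_d13a5e_al)

`u = u_(j-1)` is the last root of the pencil of `t`, `d2` with `φ u < 0`, `ρ u > τ = (s_(j-1) - 1) / s_j`.  With (U1) and the
spectrum gap `B(x,u) ≤ 1` or `B(x,u)² ≥ 1 + K²`, `K² = - det Gram`, one gets a contradiction if `τ² + 2 τ K ≥ 1`.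
-/

set_option autoImplicit false

namespace DY

open Set

variable {E : Type*} [AddCommGroup E] [Module ℝ E]
variable {Ψ : Set E} {B : E →ₗ[ℝ] E →ₗ[ℝ] ℝ} {ρ φ : E →ₗ[ℝ] ℝ} {t d1 d2 x x' : E}
variable {g x1 x2 g' x1' x2' : ℝ}

/-- the hypothesis `hd` of `Xs.u1` -/
theorem Xs.hd32 (X : Xs Ψ B ρ φ t d1 d2 x x' g x1 x2 g' x1' x2') {a0 b : ℝ}
    (hu : a0 • t + b • d2 ∈ Ψ) (hφ : a0 + b * φ d2 < 0) :
    1 ≤ b * (g * x1' - g' * x1) - a0 * (x2 * x1' - x1 * x2') := by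
  obtain ⟨f, f1, f2, f3⟩ := exists_form3 X.L.tri.indep 1 0 0
  obtain ⟨k, k1, k2, k3⟩ := exists_form3 X.L.tri.indep 0 1 0
  obtain ⟨l, l1, l2, l3⟩ := exists_form3 X.L.tri.indep 0 0 1
  have h0 : vol f k l t d1 d2 = 1 := by
    unfold vol
    rw [f1, f2, f3, k1, k2, k3, l1, l2, l3]
    norm_num
  have h1 : vol f k l x x' (a0 • t + b • d2) =
      b * (g * x1' - g' * x1) - a0 * (x2 * x1' - x1 * x2') := by
    have e : a0 • t + b • d2 = a0 • t + (0 : ℝ) • d1 + b • d2 := by module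
    rw [e, X.e, X.e', vol_comb, h0]
    ring
  have h2 := det_ge (f := f) (g := k) (h := l) X.L.tri X.L.xm X.L.xm' hu
  rw [h1, h0] at h2
  have z1 : g + x1 * φ d1 + x2 * φ d2 = 0 := by
    have := X.c.fz
    linarith
  have z2 : g' + x1' * φ d1 + x2' * φ d2 = 0 := by
    have := X.c'.fz
    linarith
  have hD : 0 < x2 * x1' - x1 * x2' := by linarith [X.st]
  have h3 : b * (g * x1' - g' * x1) - a0 * (x2 * x1' - x1 * x2') =
      -(a0 + b * φ d2) * (x2 * x1' - x1 * x2') := by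
    linear_combination (b * x1') * z1 - (b * x1) * z2
  have h4 : 0 < b * (g * x1' - g' * x1) - a0 * (x2 * x1' - x1 * x2') := by
    rw [h3]
    exact mul_pos (by linarith) hD
  rcases h2 with h2 | h2
  · linarith
  · rwa [abs_one, abs_of_pos h4] at h2

/-- `ρ u > τ` -/
theorem tau_lt32 {c r : ℝ} {m : ℕ} (h1 : 0 < sq c (m + 1)) (h2 : 0 < sq c (m + 2))
    (h : 1 < sq c (m + 2) * r + sq c (m + 1)) :
    (sq c (m + 1) - 1) / sq c (m + 2) < sq c m + sq c (m + 1) * r := by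
  rw [div_lt_iff₀ h2]
  have h3 := sq_cassini c m
  have h4 := mul_lt_mul_of_pos_left h h1
  nlinarith

/-- `τ` increases -/
theorem tau_mono32 {c : ℝ} {m : ℕ} (h1 : 0 ≤ sq c (m + 1)) (h2 : 0 < sq c (m + 2))
    (h3 : 0 < sq c (m + 3)) :
    (sq c (m + 1) - 1) / sq c (m + 2) ≤ (sq c (m + 2) - 1) / sq c (m + 3) := by
  rw [div_le_div_iff₀ h2 h3]
  have h4 := sq_cassini c (m + 1)
  have h5 := sq_le_succ (b := c) (n := m + 2) h2.le h3.le
  have e1 : m + 1 + 1 = m + 2 := rfl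
  have e2 : m + 1 + 2 = m + 3 := rfl
  have e3 : m + 2 + 1 = m + 3 := rfl
  rw [e1, e2] at h4
  rw [e3] at h5
  nlinarith

/-- the spectrum gap for `x` and the roots of the pencil of `t` and `d2`, `m_O = 2`, labels less than one -/
def GapU32 (Ψ : Set E) (B : E →ₗ[ℝ] E →ₗ[ℝ] ℝ) : Prop :=
  ∀ (ρ φ : E →ₗ[ℝ] ℝ) (t d1 d2 x x' : E) (g x1 x2 g' x1' x2' : ℝ),
    Xs Ψ B ρ φ t d1 d2 x x' g x1 x2 g' x1' x2' → B d1 d2 = 0 → -B t d1 < 1 → -B t d2 < 1 →
    0 < kq B t d1 d2 → ∀ a0 b : ℝ, a0 • t + b • d2 ∈ Ψ → 0 ≤ a0 → 0 ≤ b →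
    1 < B x (a0 • t + b • d2) → 1 + kq B t d1 d2 ≤ B x (a0 • t + b • d2) ^ 2

/-- **the kill** by (U1) and the gap -/
theorem Xs.u1_kill32 (X : Xs Ψ B ρ φ t d1 d2 x x' g x1 x2 g' x1' x2') (hgap : GapU32 Ψ B)
    (l1 : -B t d1 < 1) (l2 : -B t d2 < 1) (l0 : B d1 d2 = 0) (hq : 0 < kq B t d1 d2) {m : ℕ}
    (hG : Good (-B t d2) (φ d2) (m + 1))
    (hτ : 1 ≤ ((sq (-B t d2) (m + 1) - 1) / sq (-B t d2) (m + 2)) ^ 2 +
      2 * ((sq (-B t d2) (m + 1) - 1) / sq (-B t d2) (m + 2)) * √(kq B t d1 d2)) : False := by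
  have hC := X.L.tri.cp'
  have hs1 := hG.hs m (by omega)
  have hs2 := hG.hs (m + 1) le_rfl
  have hu : sq (-B t d2) m • t + sq (-B t d2) (m + 1) • d2 ∈ Ψ := hC.mem m
  have hb : 1 ≤ sq (-B t d2) (m + 1) := hC.sq_one_le hs1
  have hφ : sq (-B t d2) m + sq (-B t d2) (m + 1) * φ d2 < 0 := by
    have h1 := hG.hm m (by omega)
    rcases h1.lt_or_eq with h2 | h2
    · linarith
    · exfalso
      refine Pool.Agent.Helper80.DY.no_flat X.L X.e X.e' X.p1 X.p1'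
        (α := sq (-B t d2) m) (β := sq (-B t d2) (m + 1)) ?_ (by linarith)
      have e : sq (-B t d2) m • t + (0 : ℝ) • d1 + sq (-B t d2) (m + 1) • d2 =
          sq (-B t d2) m • t + sq (-B t d2) (m + 1) • d2 := by module
      rw [e]
      exact hu
  have hd := X.hd32 hu hφ
  have ha0 : 0 ≤ sq (-B t d2) m := by
    rcases Nat.eq_zero_or_pos m with h | h
    · rw [h]
      exact le_rfl
    · obtain ⟨n, rfl⟩ := Nat.exists_eq_succ_of_ne_zero h.ne'
      exact (hG.hs n (by omega)).le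
  obtain ⟨i1, i2, i3⟩ := X.u1 (by linarith) (by linarith) (by linarith) hu hb hd
  have hnk := hG.nk X.L.str_2 X.h2
  have hρ := tau_lt32 hs1 hs2 hnk
  set τ := (sq (-B t d2) (m + 1) - 1) / sq (-B t d2) (m + 2) with hτd
  have hτ0 : 0 ≤ τ := div_nonneg (by linarith) hs2.le
  set K := √(kq B t d1 d2) with hKd
  have hK0 : 0 ≤ K := Real.sqrt_nonneg _
  have hKK : K ^ 2 = kq B t d1 d2 := Real.sq_sqrt hq.le
  have hgp : 1 < B x (sq (-B t d2) m • t + sq (-B t d2) (m + 1) • d2) →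
      1 + kq B t d1 d2 ≤ B x (sq (-B t d2) m • t + sq (-B t d2) (m + 1) • d2) ^ 2 :=
    hgap _ _ _ _ _ _ _ _ _ _ _ _ _ X l0 l1 l2 hq _ _ hu ha0 (by linarith)
  set b := B x (sq (-B t d2) m • t + sq (-B t d2) (m + 1) • d2) with hbd
  have r0 := X.L.rx
  have r1 : ρ x ≤ 1 := by linarith [X.L.sum, X.L.rx']
  rcases le_or_gt b 1 with h1 | h1
  · have h2 : -1 ≤ b := by
      by_contra hcon
      rw [not_le] at hcon
      have := mul_nonneg r0 (by linarith : 0 ≤ -b)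
      linarith
    have h3 := i2 h2 h1
    have h4 : τ < ρ x * (b - K) := by linarith
    have h5 : 0 < b - K := by
      by_contra hcon
      rw [not_lt] at hcon
      have := mul_nonneg r0 (by linarith : 0 ≤ -(b - K))
      linarith
    have h6 : ρ x * (b - K) ≤ 1 * (b - K) := mul_le_mul_of_nonneg_right r1 h5.le
    have h7 : τ + K < 1 := by linarith
    nlinarith
  · have h2 := hgp h1
    have h3 := i3 hq h1.le
    have h4 : 0 ≤ b ^ 2 - 1 := by linarith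
    set S := √(b ^ 2 - 1) with hSd
    have hS0 : 0 ≤ S := Real.sqrt_nonneg _
    have hSS : S ^ 2 = b ^ 2 - 1 := Real.sq_sqrt h4
    have hKS : K ≤ S := Real.sqrt_le_sqrt (by linarith)
    have h5 : 0 < b - S := by nlinarith
    have h6 : ρ x * (b - S) ≤ 1 * (b - S) := mul_le_mul_of_nonneg_right r1 h5.le
    have h7 : τ < b - S := by linarith
    have h8 : τ + 2 * K < b + S := by linarith
    have h9 : τ * (τ + 2 * K) ≤ τ * (b + S) := mul_le_mul_of_nonneg_left h8.le hτ0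
    have h10 : τ * (b + S) < (b - S) * (b + S) := mul_lt_mul_of_pos_right h7 (by linarith)
    nlinarith

/-- the kill, from an earlier index on -/
theorem Xs.u1_kill32' (X : Xs Ψ B ρ φ t d1 d2 x x' g x1 x2 g' x1' x2') (hgap : GapU32 Ψ B)
    (l1 : -B t d1 < 1) (l2 : -B t d2 < 1) (l0 : B d1 d2 = 0) (hq : 0 < kq B t d1 d2) {k m : ℕ}
    (hG : Good (-B t d2) (φ d2) k) (hm : m + 1 ≤ k)
    (hτ : 1 ≤ ((sq (-B t d2) (m + 1) - 1) / sq (-B t d2) (m + 2)) ^ 2 +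
      2 * ((sq (-B t d2) (m + 1) - 1) / sq (-B t d2) (m + 2)) * √(kq B t d1 d2)) : False := by
  have hC := X.L.tri.cp'
  have key : ∀ n : ℕ, m + n + 1 ≤ k →
      (sq (-B t d2) (m + 1) - 1) / sq (-B t d2) (m + 2) ≤
        (sq (-B t d2) (m + n + 1) - 1) / sq (-B t d2) (m + n + 2) := by
    intro n
    induction n with
    | zero => exact fun _ => le_rfl
    | succ n ih =>
      intro hn
      refine (ih (by omega)).trans ?_
      have e1 : m + (n + 1) + 1 = m + n + 2 := by omega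
      have e2 : m + (n + 1) + 2 = m + n + 3 := by omega
      rw [e1, e2]
      exact tau_mono32 (hG.hs (m + n) (by omega)).le (hG.hs (m + n + 1) (by omega))
        (hG.hs (m + n + 2) (by omega))
  obtain ⟨n, hn⟩ := Nat.exists_eq_add_of_le hm
  have e : k = (m + n) + 1 := by omega
  rw [e] at hG
  refine X.u1_kill32 hgap l1 l2 l0 hq hG ?_
  have h1 := key n (by omega)
  have h2 : 1 ≤ sq (-B t d2) (m + 1) := hC.sq_one_le (hG.hs m (by omega))
  have h3 : 0 ≤ (sq (-B t d2) (m + 1) - 1) / sq (-B t d2) (m + 2) :=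
    div_nonneg (by linarith) (hG.hs (m + 1) (by omega)).le
  have h4 := Real.sqrt_nonneg (kq B t d1 d2)
  have h5 := pow_le_pow_left₀ h3 h1 2
  have h6 := mul_le_mul_of_nonneg_right h1 h4
  linarith

end DY
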