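import Pool.Agent.Helper32.DY.Gap1
import Pool.Agent.Helper29.DY.Gt
import Pool.Agent.Helper14.DY.G1c
import Pool.Agent.Helper89.DY.Mir3
import Pool.Agent.Helper70.DY.G1e
import Pool.Agent.Helper98.DY.G1f
import Pool.Agent.Helper62.DY.G1g
import Pool.Agent.Helper97.DY.N6

/-!
# [GAP1]: the assembly (MP_d13a5e_al)

`g1xLa`, `g1d`, `g1h` (helper29), `g1c` (helper14), `g1e` (helper70), `g1f` (helper98), `g1g` (helper62),
`g1n_of` (helper97) with `g1m_all` (helper89).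
-/

set_option autoImplicit false

namespace DY

variable {E : Type*} [AddCommGroup E] [Module ℝ E]

/-- [GAP1], `b1 = 0`, `h = d2`, for the chamber data without the strip of `d1` -/
theorem g1m32 (Ψ : Set E) (B : E →ₗ[ℝ] E →ₗ[ℝ] ℝ) : G1M Ψ B := by
  refine g1m_all ?_
  intro b bO R κ f q1 r g x1 x2 g' x1' x2' k τ e C hP
  have hP' : (2 : ℝ) ≤ (2 * bO) ^ 2 := hP
  exact St29.g1r4 b bO R κ f q1 r g x1 x2 g' x1' x2' k τ e C
    (show (1 : ℝ) ≤ 2 * bO ^ 2 by linarith [hP', (by ring : (2 * bO) ^ 2 = 2 * (2 * bO ^ 2))])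

/-- **[GAP1]** -/
theorem gap1_all (Ψ : Set E) (B : E →ₗ[ℝ] E →ₗ[ℝ] ℝ) : GAP1 Ψ B :=
  gap1_of (g1xLa29 Ψ B) (g1c Ψ B) (g1d Ψ B) (g1e Ψ B) (G98.g1f Ψ B) Pool.Agent.Helper62.DY.g1g
    (g1h Ψ B) (Pool.Agent.Helper97.DY.g1n_of Ψ B (g1m32 Ψ B))

end DY
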